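import Mathlib

/-!
Selberg's sieve: the optimal weights and the value of the main term.
-/

namespace Pool.Agent.Helper6.Sieve

open Finset ArithmeticFunction BoundingSieve
open scoped ArithmeticFunction.Moebius ArithmeticFunction.zeta

theorem sum_moebius (n : ℕ) : ∑ e ∈ n.divisors, (μ e : ℝ) = if n = 1 then 1 else 0 := by
  have h := DFunLike.congr_fun moebius_mul_coe_zeta n
  rw [mul_comm, coe_zeta_mul_apply, one_apply] at h
  have h2 : ((∑ e ∈ n.divisors, μ e : ℤ) : ℝ) = ((if n = 1 then 1 else 0 : ℤ) : ℝ) := by rw [h]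
  push_cast at h2
  exact h2

theorem sum_moebius_multiples {l m : ℕ} (hm : Squarefree m) (hl : l ∣ m) :
    ∑ d ∈ m.divisors with l ∣ d, (μ d : ℝ) = if m = l then (μ l : ℝ) else 0 := by
  have hm0 : m ≠ 0 := hm.ne_zero
  obtain ⟨t, rfl⟩ := hl
  have hl0 : l ≠ 0 := by rintro rfl; simp at hm0
  have ht0 : t ≠ 0 := by rintro rfl; simp at hm0
  have h1 : ∑ d ∈ (l * t).divisors with l ∣ d, (μ d : ℝ) = ∑ e ∈ t.divisors, (μ (l * e) : ℝ) := by
    symm
    apply Finset.sum_nbij (fun e => l * e)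
    · intro e he
      rw [Nat.mem_divisors] at he
      rw [mem_filter, Nat.mem_divisors]
      exact ⟨⟨Nat.mul_dvd_mul_left l he.1, hm0⟩, Dvd.intro _ rfl⟩
    · intro a _ b _ hab
      exact Nat.eq_of_mul_eq_mul_left (Nat.pos_of_ne_zero hl0) hab
    · intro d hd
      rw [mem_coe, mem_filter, Nat.mem_divisors] at hd
      obtain ⟨⟨hd1, _⟩, ⟨e, rfl⟩⟩ := hd
      refine ⟨e, ?_, rfl⟩
      rw [mem_coe, Nat.mem_divisors]
      exact ⟨Nat.dvd_of_mul_dvd_mul_left (Nat.pos_of_ne_zero hl0) hd1, ht0⟩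
    · intro e _; rfl
  rw [h1]
  have h2 : ∀ e ∈ t.divisors, (μ (l * e) : ℝ) = (μ l : ℝ) * (μ e : ℝ) := by
    intro e he
    rw [Nat.mem_divisors] at he
    have hsq : Squarefree (l * e) := hm.squarefree_of_dvd (Nat.mul_dvd_mul_left l he.1)
    have hcop : l.Coprime e := Nat.coprime_of_squarefree_mul hsq
    rw [isMultiplicative_moebius.map_mul_of_coprime hcop]
    push_cast
    ring
  rw [Finset.sum_congr rfl h2, ← Finset.mul_sum, sum_moebius]
  by_cases ht : t = 1
  · subst ht; simp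
  · rw [if_neg ht, if_neg, mul_zero]
    intro h
    apply ht
    have : l * t = l * 1 := by rw [h, mul_one]
    exact Nat.eq_of_mul_eq_mul_left (Nat.pos_of_ne_zero hl0) this

variable (s : BoundingSieve) (D : ℕ)

/-- The sum `Σ_{l ≤ D} g(l)` over the divisors of `prodPrimes`. -/
noncomputable def selSum : ℝ := ∑ l ∈ s.prodPrimes.divisors with l ≤ D, s.selbergTerms l

/-- The optimal Selberg weights. -/
noncomputable def wt (d : ℕ) : ℝ :=
  if d ∣ s.prodPrimes then
    (μ d : ℝ) * (s.nu d)⁻¹ * (selSum s D)⁻¹ *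
      ∑ m ∈ s.prodPrimes.divisors with (m ≤ D ∧ d ∣ m), s.selbergTerms m
  else 0

variable {s D}

theorem selSum_pos (hD : 1 ≤ D) : 0 < selSum s D := by
  unfold selSum
  apply Finset.sum_pos
  · intro l hl
    rw [mem_filter, Nat.mem_divisors] at hl
    exact selbergTerms_pos hl.1.1
  · exact ⟨1, by rw [mem_filter, Nat.mem_divisors]; exact ⟨⟨one_dvd _, prodPrimes_ne_zero⟩, hD⟩⟩

theorem wt_one (hD : 1 ≤ D) : wt s D 1 = 1 := by
  unfold wt
  rw [if_pos (one_dvd _)]
  have h1 : s.nu 1 = 1 := s.nu_mult.map_one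
  have h2 : ∑ m ∈ s.prodPrimes.divisors with (m ≤ D ∧ 1 ∣ m), s.selbergTerms m = selSum s D := by
    unfold selSum
    apply Finset.sum_congr _ (fun _ _ => rfl)
    ext m
    simp
  rw [h1, h2]
  simp only [moebius_apply_one, Int.cast_one, inv_one, mul_one, one_mul]
  exact inv_mul_cancel₀ (selSum_pos hD).ne'

theorem wt_eq_zero_of_lt {d : ℕ} (hd : D < d) : wt s D d = 0 := by
  unfold wt
  split_ifs with h
  · have : ∑ m ∈ s.prodPrimes.divisors with (m ≤ D ∧ d ∣ m), s.selbergTerms m = 0 := by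
      apply Finset.sum_eq_zero
      intro m hm
      rw [mem_filter, Nat.mem_divisors] at hm
      obtain ⟨⟨hm1, hm2⟩, hm3, hm4⟩ := hm
      have hm0 : 0 < m := Nat.pos_of_ne_zero (ne_zero_of_dvd_ne_zero hm2 hm1)
      have := Nat.le_of_dvd hm0 hm4
      omega
    rw [this, mul_zero]
  · rfl

theorem wt_eq_zero_of_not_dvd {d : ℕ} (hd : ¬ d ∣ s.prodPrimes) : wt s D d = 0 := by
  unfold wt
  rw [if_neg hd]

theorem abs_wt_le (hD : 1 ≤ D) {d : ℕ} (hd : d ∣ s.prodPrimes) : |wt s D d| ≤ (s.nu d)⁻¹ := by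
  unfold wt
  rw [if_pos hd]
  have hnu := nu_pos_of_dvd_prodPrimes hd
  have hS := selSum_pos (s := s) hD
  have h1 : ∑ m ∈ s.prodPrimes.divisors with (m ≤ D ∧ d ∣ m), s.selbergTerms m ≤ selSum s D := by
    unfold selSum
    apply Finset.sum_le_sum_of_subset_of_nonneg
    · intro m hm
      rw [mem_filter] at hm ⊢
      exact ⟨hm.1, hm.2.1⟩
    · intro m hm _
      rw [mem_filter, Nat.mem_divisors] at hm
      exact (selbergTerms_pos hm.1.1).le
  have h0 : 0 ≤ ∑ m ∈ s.prodPrimes.divisors with (m ≤ D ∧ d ∣ m), s.selbergTerms m := by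
    apply Finset.sum_nonneg
    intro m hm
    rw [mem_filter, Nat.mem_divisors] at hm
    exact (selbergTerms_pos hm.1.1).le
  have h2 : |(μ d : ℝ)| ≤ 1 := by
    have := abs_moebius_le_one (n := d)
    exact_mod_cast this
  rw [abs_mul, abs_mul, abs_mul, abs_of_nonneg h0, abs_of_pos (inv_pos.mpr hnu),
    abs_of_pos (inv_pos.mpr hS)]
  calc |(μ d : ℝ)| * (s.nu d)⁻¹ * (selSum s D)⁻¹ *
        ∑ m ∈ s.prodPrimes.divisors with (m ≤ D ∧ d ∣ m), s.selbergTerms m
      ≤ 1 * (s.nu d)⁻¹ * (selSum s D)⁻¹ * selSum s D := by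
        gcongr
    _ = (s.nu d)⁻¹ := by
        rw [one_mul, mul_assoc, inv_mul_cancel₀ hS.ne', mul_one]

theorem inner_sum (hD : 1 ≤ D) {l : ℕ} (hl : l ∣ s.prodPrimes) :
    ∑ d ∈ s.prodPrimes.divisors, (if l ∣ d then s.nu d * wt s D d else 0) =
      if l ≤ D then (μ l : ℝ) * s.selbergTerms l / selSum s D else 0 := by
  have hS := selSum_pos (s := s) hD
  have h1 : ∀ d ∈ s.prodPrimes.divisors, (if l ∣ d then s.nu d * wt s D d else 0) =
      ∑ m ∈ s.prodPrimes.divisors with m ≤ D,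
        (if l ∣ d ∧ d ∣ m then (μ d : ℝ) * (selSum s D)⁻¹ * s.selbergTerms m else 0) := by
    intro d hd
    rw [Nat.mem_divisors] at hd
    by_cases hld : l ∣ d
    · rw [if_pos hld]
      unfold wt
      rw [if_pos hd.1]
      have hnu := nu_pos_of_dvd_prodPrimes hd.1
      have e : s.nu d * ((μ d : ℝ) * (s.nu d)⁻¹ * (selSum s D)⁻¹ *
          ∑ m ∈ s.prodPrimes.divisors with (m ≤ D ∧ d ∣ m), s.selbergTerms m) =
          (μ d : ℝ) * (selSum s D)⁻¹ *
            ∑ m ∈ s.prodPrimes.divisors with (m ≤ D ∧ d ∣ m), s.selbergTerms m := by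
        field_simp
      rw [e, Finset.mul_sum, Finset.sum_filter, Finset.sum_filter]
      apply Finset.sum_congr rfl
      intro m _
      by_cases hm1 : m ≤ D <;> by_cases hm2 : d ∣ m <;> simp [hm1, hm2, hld]
    · rw [if_neg hld]
      symm
      apply Finset.sum_eq_zero
      intro m _
      rw [if_neg (fun h => hld h.1)]
  rw [Finset.sum_congr rfl h1, Finset.sum_comm]
  have h2 : ∀ m ∈ s.prodPrimes.divisors.filter (· ≤ D),
      ∑ d ∈ s.prodPrimes.divisors,
        (if l ∣ d ∧ d ∣ m then (μ d : ℝ) * (selSum s D)⁻¹ * s.selbergTerms m else 0) =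
      if m = l then (μ l : ℝ) * (selSum s D)⁻¹ * s.selbergTerms l else 0 := by
    intro m hm
    rw [mem_filter, Nat.mem_divisors] at hm
    have hmsq : Squarefree m := squarefree_of_dvd_prodPrimes hm.1.1
    have e1 : ∑ d ∈ s.prodPrimes.divisors,
        (if l ∣ d ∧ d ∣ m then (μ d : ℝ) * (selSum s D)⁻¹ * s.selbergTerms m else 0) =
        (∑ d ∈ m.divisors with l ∣ d, (μ d : ℝ)) * ((selSum s D)⁻¹ * s.selbergTerms m) := by
      rw [← Finset.sum_filter, Finset.sum_mul]
      apply Finset.sum_congr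
      · ext d
        rw [mem_filter, mem_filter, Nat.mem_divisors, Nat.mem_divisors]
        constructor
        · rintro ⟨_, h3, h4⟩
          exact ⟨⟨h4, hmsq.ne_zero⟩, h3⟩
        · rintro ⟨⟨h3, _⟩, h4⟩
          exact ⟨⟨h3.trans hm.1.1, hm.1.2⟩, h4, h3⟩
      · intro d _; ring
    rw [e1]
    by_cases hlm : l ∣ m
    · rw [sum_moebius_multiples hmsq hlm]
      by_cases hml : m = l
      · subst hml
        simp
        ring
      · rw [if_neg hml, if_neg hml, zero_mul]
    · have : (m.divisors.filter (fun d => l ∣ d)) = ∅ := by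
        apply Finset.filter_eq_empty_iff.mpr
        intro d hd hld
        rw [Nat.mem_divisors] at hd
        exact hlm (hld.trans hd.1)
      rw [this, Finset.sum_empty, zero_mul, if_neg]
      rintro rfl
      exact hlm dvd_rfl
  rw [Finset.sum_congr rfl h2, Finset.sum_ite_eq']
  by_cases hlD : l ≤ D
  · rw [if_pos, if_pos hlD]
    · field_simp
    · rw [mem_filter, Nat.mem_divisors]
      exact ⟨⟨hl, prodPrimes_ne_zero⟩, hlD⟩
  · rw [if_neg, if_neg hlD]
    rw [mem_filter]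
    exact fun h => hlD h.2

/-- The main term of the Selberg sieve. -/
theorem mainSum_wt (hD : 1 ≤ D) : s.mainSum (lambdaSquared (wt s D)) = (selSum s D)⁻¹ := by
  have hS := selSum_pos (s := s) hD
  rw [mainSum_lambdaSquared_eq_sum_mul_sum_sq]
  have h1 : ∀ l ∈ s.prodPrimes.divisors, (s.selbergTerms l)⁻¹ *
      (∑ d ∈ s.prodPrimes.divisors, if l ∣ d then s.nu d * wt s D d else 0) ^ 2 =
      if l ≤ D then s.selbergTerms l / selSum s D ^ 2 else 0 := by
    intro l hl
    rw [Nat.mem_divisors] at hl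
    rw [inner_sum hD hl.1]
    have hg := selbergTerms_pos hl.1
    by_cases hlD : l ≤ D
    · rw [if_pos hlD, if_pos hlD, div_pow, mul_pow]
      have hmu : (μ l : ℝ) ^ 2 = 1 := by
        have := moebius_sq_eq_one_of_squarefree (squarefree_of_dvd_prodPrimes hl.1)
        exact_mod_cast this
      rw [hmu]
      field_simp
    · rw [if_neg hlD, if_neg hlD]
      simp
  rw [Finset.sum_congr rfl h1, ← Finset.sum_filter, ← Finset.sum_div]
  change selSum s D / selSum s D ^ 2 = _
  field_simp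

end Pool.Agent.Helper6.Sieve
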