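import Mathlib
import Pool.Agent.Helper6.Sieve.Selberg

/-!
Counting the integers that avoid the residue class `0` modulo all primes `ℓ ≤ D` and the residue
class `1` modulo the primes of a set `P`.
-/

namespace Pool.Agent.Helper6.Sieve

open Finset

/-- `ℓ` is bad for `n` -/
def Bad (P : Finset ℕ) (l n : ℕ) : Prop := n % l = 0 ∨ (l ∈ P ∧ n % l = 1)

instance (P : Finset ℕ) (l n : ℕ) : Decidable (Bad P l n) := by unfold Bad; infer_instance

/-- the number of removed classes -/
def cc (P : Finset ℕ) (l : ℕ) : ℕ := if l ∈ P then 2 else 1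

theorem card_crt {a b : ℕ} (ha : 0 < a) (hb : 0 < b) (hab : a.Coprime b) (p q : ℕ → Prop)
    [DecidablePred p] [DecidablePred q] (hp : ∀ n, p n ↔ p (n % a)) (hq : ∀ n, q n ↔ q (n % b)) :
    #{n ∈ range (a * b) | p n ∧ q n} = #{n ∈ range a | p n} * #{n ∈ range b | q n} := by
  rw [← Finset.card_product]
  apply Finset.card_bij (fun n _ => (n % a, n % b))
  · intro n hn
    rw [mem_filter, mem_range] at hn
    rw [mem_product, mem_filter, mem_filter, mem_range, mem_range]
    exact ⟨⟨Nat.mod_lt _ ha, (hp n).mp hn.2.1⟩, ⟨Nat.mod_lt _ hb, (hq n).mp hn.2.2⟩⟩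
  · intro n hn m hm h
    rw [mem_filter, mem_range] at hn hm
    simp only [Prod.mk.injEq] at h
    have h1 : n ≡ m [MOD a * b] := (Nat.modEq_and_modEq_iff_modEq_mul hab).mp ⟨h.1, h.2⟩
    exact Nat.ModEq.eq_of_lt_of_lt h1 hn.1 hm.1
  · rintro ⟨u, v⟩ huv
    rw [mem_product, mem_filter, mem_filter, mem_range, mem_range] at huv
    obtain ⟨⟨hu, hpu⟩, hv, hqv⟩ := huv
    simp only at hu hpu hv hqv
    refine ⟨Nat.chineseRemainder hab u v, ?_, ?_⟩
    · rw [mem_filter, mem_range]
      have h1 := (Nat.chineseRemainder hab u v).2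
      refine ⟨Nat.chineseRemainder_lt_mul hab u v ha.ne' hb.ne', ?_, ?_⟩
      · rw [hp, show (Nat.chineseRemainder hab u v : ℕ) % a = u % a from h1.1, ← hp]
        exact hpu
      · rw [hq, show (Nat.chineseRemainder hab u v : ℕ) % b = v % b from h1.2, ← hq]
        exact hqv
    · have h1 := (Nat.chineseRemainder hab u v).2
      rw [Prod.mk.injEq]
      refine ⟨?_, ?_⟩
      · rw [show (Nat.chineseRemainder hab u v : ℕ) % a = u % a from h1.1]
        exact Nat.mod_eq_of_lt hu
      · rw [show (Nat.chineseRemainder hab u v : ℕ) % b = v % b from h1.2]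
        exact Nat.mod_eq_of_lt hv

/-- all primes dividing `d` are bad for `n` -/
def AllBad (P : Finset ℕ) (d n : ℕ) : Prop := ∀ l ∈ d.primeFactors, Bad P l n

instance (P : Finset ℕ) (d n : ℕ) : Decidable (AllBad P d n) := by unfold AllBad; infer_instance

theorem bad_mod (P : Finset ℕ) {l d n : ℕ} (hl : l ∣ d) : Bad P l n ↔ Bad P l (n % d) := by
  unfold Bad
  rw [Nat.mod_mod_of_dvd n hl]

theorem allBad_mod (P : Finset ℕ) (d n : ℕ) : AllBad P d n ↔ AllBad P d (n % d) := by
  unfold AllBad
  constructor
  · intro h l hl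
    exact (bad_mod P (Nat.dvd_of_mem_primeFactors hl)).mp (h l hl)
  · intro h l hl
    exact (bad_mod P (Nat.dvd_of_mem_primeFactors hl)).mpr (h l hl)

theorem card_bad_prime (P : Finset ℕ) {l : ℕ} (hl : l.Prime) (hP : l ∈ P → 3 ≤ l) :
    #{n ∈ range l | Bad P l n} = cc P l := by
  unfold cc
  split_ifs with h
  · have h1 : {n ∈ range l | Bad P l n} = {0, 1} := by
      ext n
      rw [mem_filter, mem_range, mem_insert, mem_singleton]
      unfold Bad
      constructor
      · rintro ⟨h1, h2⟩
        rw [Nat.mod_eq_of_lt h1] at h2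
        rcases h2 with h2 | h2
        · left; exact h2
        · right; exact h2.2
      · have := hP h
        rintro (rfl | rfl)
        · exact ⟨by omega, by simp⟩
        · exact ⟨by omega, Or.inr ⟨h, Nat.mod_eq_of_lt (by omega)⟩⟩
    rw [h1]
    rfl
  · have h1 : {n ∈ range l | Bad P l n} = {0} := by
      ext n
      rw [mem_filter, mem_range, mem_singleton]
      unfold Bad
      constructor
      · rintro ⟨h1, h2⟩
        rw [Nat.mod_eq_of_lt h1] at h2
        rcases h2 with h2 | h2
        · exact h2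
        · exact absurd h2.1 h
      · rintro rfl
        exact ⟨hl.pos, by simp⟩
    rw [h1]
    rfl

theorem card_allBad (P : Finset ℕ) (hP : ∀ p ∈ P, 3 ≤ p) (d : ℕ) :
    Squarefree d → #{n ∈ range d | AllBad P d n} = ∏ l ∈ d.primeFactors, cc P l := by
  induction d using induction_on_primes with
  | zero => intro h; simp at h
  | one =>
    intro _
    have : {n ∈ range 1 | AllBad P 1 n} = {0} := by
      ext n
      rw [mem_filter, mem_range, mem_singleton]
      constructor
      · intro h; omega
      · rintro rfl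
        exact ⟨by omega, by unfold AllBad; simp⟩
    rw [this]
    simp
  | prime_mul p m hp ih =>
    intro hsq
    have hcop : p.Coprime m := Nat.coprime_of_squarefree_mul hsq
    have hm : Squarefree m := hsq.squarefree_of_dvd (Dvd.intro_left _ rfl)
    have h1 : ∀ n, AllBad P (p * m) n ↔ (Bad P p n ∧ AllBad P m n) := by
      intro n
      unfold AllBad
      rw [Nat.primeFactors_mul hp.ne_zero hm.ne_zero, hp.primeFactors]
      simp only [mem_union, mem_singleton]
      constructor
      · intro h
        exact ⟨h p (Or.inl rfl), fun l hl => h l (Or.inr hl)⟩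
      · rintro ⟨h2, h3⟩ l (rfl | hl)
        · exact h2
        · exact h3 l hl
    have h2 : #{n ∈ range (p * m) | AllBad P (p * m) n} =
        #{n ∈ range (p * m) | Bad P p n ∧ AllBad P m n} := by
      congr 1
      apply Finset.filter_congr
      intro n _
      exact h1 n
    rw [h2, card_crt hp.pos (Nat.pos_of_ne_zero hm.ne_zero) hcop _ _
      (fun n => bad_mod P dvd_rfl) (fun n => allBad_mod P m n), ih hm,
      card_bad_prime P hp (hP p), Nat.primeFactors_mul hp.ne_zero hm.ne_zero, hp.primeFactors,
      Finset.prod_union, Finset.prod_singleton]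
    rw [Finset.disjoint_singleton_left, Nat.mem_primeFactors]
    rintro ⟨_, h3, _⟩
    exact (Nat.Prime.coprime_iff_not_dvd hp).mp hcop h3

theorem count_periodic {p : ℕ → Prop} [DecidablePred p] {d : ℕ} (hd : 0 < d)
    (hp : ∀ n, p n ↔ p (n % d)) (X : ℕ) :
    |(#{n ∈ range X | p n} : ℝ) - X * ((#{n ∈ range d | p n} : ℝ) / d)| ≤ d := by
  have hshift : ∀ t k, p (d * t + k) ↔ p k := by
    intro t k
    rw [hp (d * t + k), Nat.mul_add_mod, ← hp]
  have hc1 : ∀ t, Nat.count p (d * t) = t * Nat.count p d := by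
    intro t
    induction t with
    | zero => simp
    | succ t ih =>
      rw [Nat.mul_succ, Nat.count_add, ih]
      have : (fun k => p (d * t + k)) = p := by
        funext k
        exact propext (hshift t k)
      simp only [this]
      ring
  obtain ⟨t, u, hu, rfl⟩ : ∃ t u, u < d ∧ X = d * t + u :=
    ⟨X / d, X % d, Nat.mod_lt _ hd, (Nat.div_add_mod X d).symm⟩
  have hc2 : Nat.count p (d * t + u) = t * Nat.count p d + Nat.count p u := by
    rw [Nat.count_add, hc1]
    have : (fun k => p (d * t + k)) = p := by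
      funext k
      exact propext (hshift t k)
    simp only [this]
  rw [← Nat.count_eq_card_filter_range, ← Nat.count_eq_card_filter_range, hc2]
  have h1 : Nat.count p u ≤ u := Nat.count_le p
  have h2 : Nat.count p d ≤ d := Nat.count_le p
  have h1' : (Nat.count p u : ℝ) ≤ u := by exact_mod_cast h1
  have h2' : (Nat.count p d : ℝ) ≤ d := by exact_mod_cast h2
  have hd' : (0 : ℝ) < d := by exact_mod_cast hd
  have hu' : (u : ℝ) ≤ d := by exact_mod_cast hu.le
  push_cast
  have e : (t : ℝ) * (Nat.count p d : ℝ) + (Nat.count p u : ℝ) -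
      ((d : ℝ) * t + u) * ((Nat.count p d : ℝ) / d) =
      (Nat.count p u : ℝ) - u * ((Nat.count p d : ℝ) / d) := by
    field_simp
    ring
  rw [e]
  have h3 : 0 ≤ (u : ℝ) * ((Nat.count p d : ℝ) / d) := by positivity
  have h4 : (u : ℝ) * ((Nat.count p d : ℝ) / d) ≤ u * 1 := by
    apply mul_le_mul_of_nonneg_left _ (by positivity)
    rw [div_le_one hd']
    exact h2'
  have h5 : (0 : ℝ) ≤ Nat.count p u := by positivity
  rw [abs_le]
  constructor <;> linarith

end Pool.Agent.Helper6.Sieve
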