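import Mathlib
import Pool.Agent.Helper6.Sieve.Count

/-!
The upper bound of Selberg's sieve for the integers that avoid the residue class `0` modulo all
primes `ℓ ≤ D` and the residue class `1` modulo the primes of a set `P`.
-/

namespace Pool.Agent.Helper6.Sieve

open Finset BoundingSieve

theorem cc_pos (P : Finset ℕ) (l : ℕ) : 1 ≤ cc P l := by unfold cc; split_ifs <;> norm_num

/-- the sieve -/
noncomputable def sv (P : Finset ℕ) (hP : ∀ p ∈ P, 3 ≤ p) (D : ℕ) : BoundingSieve where
  support := ∅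
  prodPrimes := primorial D
  prodPrimes_squarefree := squarefree_primorial D
  weights := fun _ => 0
  weights_nonneg := fun _ => le_rfl
  totalMass := 0
  nu := ArithmeticFunction.prodPrimeFactors (fun l => (cc P l : ℝ) / l)
  nu_mult := ArithmeticFunction.IsMultiplicative.prodPrimeFactors _
  nu_pos_of_prime := by
    intro p hp _
    rw [ArithmeticFunction.prodPrimeFactors_apply hp.ne_zero, hp.primeFactors, prod_singleton]
    have h1 := cc_pos P p
    have h2 := hp.pos
    have h1' : (0 : ℝ) < cc P p := by exact_mod_cast h1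
    have h2' : (0 : ℝ) < p := by exact_mod_cast h2
    positivity
  nu_lt_one_of_prime := by
    intro p hp _
    rw [ArithmeticFunction.prodPrimeFactors_apply hp.ne_zero, hp.primeFactors, prod_singleton]
    have h2 := hp.two_le
    have h2' : (0 : ℝ) < p := by exact_mod_cast hp.pos
    rw [div_lt_one h2']
    have h3 : cc P p < p := by
      unfold cc
      split_ifs with h
      · have := hP p h; omega
      · omega
    exact_mod_cast h3

variable {P : Finset ℕ} {hP : ∀ p ∈ P, 3 ≤ p} {D : ℕ}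

theorem sv_nu {d : ℕ} (hd : d ≠ 0) :
    (sv P hP D).nu d = ∏ l ∈ d.primeFactors, ((cc P l : ℝ) / l) := by
  unfold sv
  exact ArithmeticFunction.prodPrimeFactors_apply hd

theorem sv_nu' {d : ℕ} (hd : Squarefree d) :
    (sv P hP D).nu d = ((∏ l ∈ d.primeFactors, cc P l : ℕ) : ℝ) / d := by
  rw [sv_nu hd.ne_zero, Finset.prod_div_distrib]
  have h : ((d : ℕ) : ℝ) = ∏ l ∈ d.primeFactors, (l : ℝ) := by
    have := Nat.prod_primeFactors_of_squarefree hd
    conv_lhs => rw [← this]
    push_cast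
    rfl
  rw [← h]
  push_cast
  rfl

theorem inv_nu_le {d : ℕ} (hd : Squarefree d) : ((sv P hP D).nu d)⁻¹ ≤ d := by
  rw [sv_nu' hd, inv_div]
  have h1 : 1 ≤ ∏ l ∈ d.primeFactors, cc P l := Finset.one_le_prod' (fun l _ => cc_pos P l)
  have h1' : (1 : ℝ) ≤ ((∏ l ∈ d.primeFactors, cc P l : ℕ) : ℝ) := by exact_mod_cast h1
  exact div_le_self (by positivity) h1'

/-- The product of the bad primes up to `D`. -/
def badProd (P : Finset ℕ) (D n : ℕ) : ℕ := ∏ l ∈ (Nat.primesLE D).filter (fun l => Bad P l n), l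

theorem mem_primesLE {D l : ℕ} : l ∈ Nat.primesLE D ↔ l ≤ D ∧ l.Prime := Nat.mem_primesLE

theorem badProd_dvd (P : Finset ℕ) (D n : ℕ) : badProd P D n ∣ primorial D := by
  rw [primorial_eq_prod_primesLE]
  exact Finset.prod_dvd_prod_of_subset _ _ _ (Finset.filter_subset _ _)

theorem badProd_ne_zero (P : Finset ℕ) (D n : ℕ) : badProd P D n ≠ 0 :=
  ne_zero_of_dvd_ne_zero (primorial_ne_zero D) (badProd_dvd P D n)

theorem prime_dvd_badProd {l n : ℕ} (hl : l.Prime) :
    l ∣ badProd P D n ↔ l ≤ D ∧ Bad P l n := by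
  unfold badProd
  rw [Prime.dvd_finsetProd_iff hl.prime]
  constructor
  · rintro ⟨q, hq, hlq⟩
    rw [mem_filter, mem_primesLE] at hq
    have : l = q := (Nat.prime_dvd_prime_iff_eq hl hq.1.2).mp hlq
    subst this
    exact ⟨hq.1.1, hq.2⟩
  · rintro ⟨h1, h2⟩
    exact ⟨l, by rw [mem_filter, mem_primesLE]; exact ⟨⟨h1, hl⟩, h2⟩, dvd_rfl⟩

theorem dvd_badProd {d n : ℕ} (hd : d ∣ primorial D) : d ∣ badProd P D n ↔ AllBad P d n := by
  have hsq : Squarefree d := (squarefree_primorial D).squarefree_of_dvd hd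
  constructor
  · intro h l hl
    have hlp := Nat.prime_of_mem_primeFactors hl
    exact ((prime_dvd_badProd hlp).mp ((Nat.dvd_of_mem_primeFactors hl).trans h)).2
  · intro h
    rw [← Nat.prod_primeFactors_of_squarefree hsq]
    apply Finset.prod_primes_dvd
    · intro l hl
      exact (Nat.prime_of_mem_primeFactors hl).prime
    · intro l hl
      have hlp := Nat.prime_of_mem_primeFactors hl
      rw [prime_dvd_badProd hlp]
      refine ⟨?_, h l hl⟩
      have h1 : l ∣ primorial D := (Nat.dvd_of_mem_primeFactors hl).trans hd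
      exact hlp.dvd_primorial_iff.mp h1

theorem abs_lambdaSquared_sum (w : ℕ → ℝ) (Q : ℕ) (hQ : Q ≠ 0) (f : ℕ → ℝ) (hf : ∀ d, 0 ≤ f d) :
    ∑ d ∈ Q.divisors, |lambdaSquared w d| * f d ≤
      ∑ d1 ∈ Q.divisors, ∑ d2 ∈ Q.divisors, |w d1| * |w d2| * f (Nat.lcm d1 d2) := by
  have h1 : ∀ d ∈ Q.divisors, |lambdaSquared w d| * f d ≤
      ∑ d1 ∈ Q.divisors, ∑ d2 ∈ Q.divisors,
        (if d = Nat.lcm d1 d2 then |w d1| * |w d2| * f (Nat.lcm d1 d2) else 0) := by
    intro d hd
    rw [Nat.mem_divisors] at hd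
    have hsub : d.divisors ⊆ Q.divisors := Nat.divisors_subset_of_dvd hQ hd.1
    have hnn : ∀ d1 d2, 0 ≤ (if d = Nat.lcm d1 d2 then |w d1| * |w d2| * f (Nat.lcm d1 d2) else 0) := by
      intro d1 d2
      split_ifs
      · exact mul_nonneg (mul_nonneg (abs_nonneg _) (abs_nonneg _)) (hf _)
      · exact le_rfl
    calc |lambdaSquared w d| * f d
        ≤ (∑ d1 ∈ d.divisors, ∑ d2 ∈ d.divisors,
            |if d = Nat.lcm d1 d2 then w d1 * w d2 else 0|) * f d := by
          apply mul_le_mul_of_nonneg_right _ (hf d)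
          unfold lambdaSquared
          refine (Finset.abs_sum_le_sum_abs _ _).trans ?_
          apply Finset.sum_le_sum
          intro d1 _
          exact Finset.abs_sum_le_sum_abs _ _
      _ = ∑ d1 ∈ d.divisors, ∑ d2 ∈ d.divisors,
            (if d = Nat.lcm d1 d2 then |w d1| * |w d2| * f (Nat.lcm d1 d2) else 0) := by
          rw [Finset.sum_mul]
          apply Finset.sum_congr rfl
          intro d1 _
          rw [Finset.sum_mul]
          apply Finset.sum_congr rfl
          intro d2 _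
          split_ifs with h
          · rw [abs_mul, ← h]
          · simp
      _ ≤ ∑ d1 ∈ d.divisors, ∑ d2 ∈ Q.divisors,
            (if d = Nat.lcm d1 d2 then |w d1| * |w d2| * f (Nat.lcm d1 d2) else 0) := by
          apply Finset.sum_le_sum
          intro d1 _
          exact Finset.sum_le_sum_of_subset_of_nonneg hsub (fun d2 _ _ => hnn d1 d2)
      _ ≤ _ := Finset.sum_le_sum_of_subset_of_nonneg hsub
          (fun d1 _ _ => Finset.sum_nonneg (fun d2 _ => hnn d1 d2))
  refine (Finset.sum_le_sum h1).trans (le_of_eq ?_)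
  rw [Finset.sum_comm]
  apply Finset.sum_congr rfl
  intro d1 hd1
  rw [Finset.sum_comm]
  apply Finset.sum_congr rfl
  intro d2 hd2
  rw [Nat.mem_divisors] at hd1 hd2
  rw [Finset.sum_ite_eq_of_mem']
  rw [Nat.mem_divisors]
  exact ⟨Nat.lcm_dvd hd1.1 hd2.1, hQ⟩

theorem sift_bound (P : Finset ℕ) (hP : ∀ p ∈ P, 3 ≤ p) (D X : ℕ) (hD : 1 ≤ D) :
    (#{n ∈ range X | ∀ l ∈ Nat.primesLE D, ¬ Bad P l n} : ℝ) ≤
      X * (selSum (sv P hP D) D)⁻¹ + (D : ℝ) ^ 6 := by
  classical
  obtain ⟨s, hs⟩ : ∃ s, s = sv P hP D := ⟨_, rfl⟩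
  obtain ⟨Q, hQ⟩ : ∃ Q, Q = primorial D := ⟨_, rfl⟩
  have hsQ : s.prodPrimes = Q := by rw [hs, hQ]; rfl
  have hQ0 : Q ≠ 0 := by rw [hQ]; exact primorial_ne_zero D
  have hup := upperMoebius_lambdaSquared (wt s D) (wt_one hD)
  -- the sifted set
  have h1 : (#{n ∈ range X | ∀ l ∈ Nat.primesLE D, ¬ Bad P l n} : ℝ) ≤
      ∑ n ∈ range X, ∑ d ∈ (badProd P D n).divisors, lambdaSquared (wt s D) d := by
    rw [Finset.card_filter]
    push_cast
    apply Finset.sum_le_sum
    intro n _
    refine le_trans ?_ (hup (badProd P D n))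
    by_cases hn : ∀ l ∈ Nat.primesLE D, ¬ Bad P l n
    · have : badProd P D n = 1 := by
        by_contra hne
        obtain ⟨q, hq, hqd⟩ := Nat.exists_prime_and_dvd hne
        have := (prime_dvd_badProd hq).mp hqd
        exact hn q (mem_primesLE.mpr ⟨this.1, hq⟩) this.2
      rw [if_pos this, if_pos hn]
    · rw [if_neg hn]
      split_ifs <;> norm_num
  -- exchange of summations
  have h2 : ∑ n ∈ range X, ∑ d ∈ (badProd P D n).divisors, lambdaSquared (wt s D) d =
      ∑ d ∈ Q.divisors, lambdaSquared (wt s D) d * (#{n ∈ range X | AllBad P d n} : ℝ) := by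
    have e1 : ∀ n ∈ range X, ∑ d ∈ (badProd P D n).divisors, lambdaSquared (wt s D) d =
        ∑ d ∈ Q.divisors, if AllBad P d n then lambdaSquared (wt s D) d else 0 := by
      intro n _
      rw [← Finset.sum_filter]
      apply Finset.sum_congr _ (fun _ _ => rfl)
      ext d
      rw [mem_filter, Nat.mem_divisors, Nat.mem_divisors]
      constructor
      · rintro ⟨h3, _⟩
        have hdQ : d ∣ Q := by rw [hQ]; exact h3.trans (badProd_dvd P D n)
        refine ⟨⟨hdQ, hQ0⟩, ?_⟩
        rw [hQ] at hdQ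
        exact (dvd_badProd hdQ).mp h3
      · rintro ⟨⟨h3, _⟩, h4⟩
        rw [hQ] at h3
        exact ⟨(dvd_badProd h3).mpr h4, badProd_ne_zero P D n⟩
    rw [Finset.sum_congr rfl e1, Finset.sum_comm]
    apply Finset.sum_congr rfl
    intro d _
    rw [← Finset.sum_filter, Finset.sum_const, nsmul_eq_mul, mul_comm]
  -- main term and error
  have h3 : ∀ d ∈ Q.divisors, lambdaSquared (wt s D) d * (#{n ∈ range X | AllBad P d n} : ℝ) ≤
      X * (lambdaSquared (wt s D) d * s.nu d) + |lambdaSquared (wt s D) d| * d := by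
    intro d hd
    rw [Nat.mem_divisors] at hd
    have hdsq : Squarefree d := by
      rw [hQ] at hd
      exact (squarefree_primorial D).squarefree_of_dvd hd.1
    have hd0 : 0 < d := Nat.pos_of_ne_zero hdsq.ne_zero
    have h4 := count_periodic hd0 (fun n => allBad_mod P d n) X
    rw [card_allBad P hP d hdsq] at h4
    have h5 : s.nu d = ((∏ l ∈ d.primeFactors, cc P l : ℕ) : ℝ) / d := by rw [hs]; exact sv_nu' hdsq
    rw [← h5] at h4
    have h6 : lambdaSquared (wt s D) d * ((#{n ∈ range X | AllBad P d n} : ℝ) - X * s.nu d) ≤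
        |lambdaSquared (wt s D) d| * d := by
      refine (le_abs_self _).trans ?_
      rw [abs_mul]
      exact mul_le_mul_of_nonneg_left h4 (abs_nonneg _)
    linarith
  have h4 : ∑ d ∈ Q.divisors, lambdaSquared (wt s D) d * (#{n ∈ range X | AllBad P d n} : ℝ) ≤
      X * (selSum s D)⁻¹ + ∑ d ∈ Q.divisors, |lambdaSquared (wt s D) d| * d := by
    refine (Finset.sum_le_sum h3).trans ?_
    rw [Finset.sum_add_distrib, ← Finset.mul_sum]
    have : ∑ d ∈ Q.divisors, lambdaSquared (wt s D) d * s.nu d = (selSum s D)⁻¹ := by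
      rw [← mainSum_wt hD]
      unfold mainSum
      rw [hsQ]
    rw [this]
  -- the error term
  have h5 : ∑ d ∈ Q.divisors, |lambdaSquared (wt s D) d| * d ≤ (D : ℝ) ^ 6 := by
    have e0 := abs_lambdaSquared_sum (wt s D) Q hQ0 (fun d => (d : ℝ)) (fun d => by positivity)
    refine e0.trans ?_
    have hw : ∀ d ∈ Q.divisors, |wt s D d| ≤ if d ≤ D then (D : ℝ) else 0 := by
      intro d hd
      rw [Nat.mem_divisors] at hd
      split_ifs with h
      · have h6 : |wt s D d| ≤ (s.nu d)⁻¹ := abs_wt_le hD (by rw [hsQ]; exact hd.1)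
        have hdsq : Squarefree d := by
          rw [hQ] at hd
          exact (squarefree_primorial D).squarefree_of_dvd hd.1
        have h7 : (s.nu d)⁻¹ ≤ d := by rw [hs]; exact inv_nu_le hdsq
        have h8 : (d : ℝ) ≤ D := by exact_mod_cast h
        linarith
      · rw [wt_eq_zero_of_lt (by omega)]
        simp
    have hD0 : (0 : ℝ) ≤ D := by positivity
    have e2 : ∀ d1 ∈ Q.divisors, ∀ d2 ∈ Q.divisors,
        |wt s D d1| * |wt s D d2| * ((Nat.lcm d1 d2 : ℕ) : ℝ) ≤
          (if d1 ≤ D then (1 : ℝ) else 0) * ((if d2 ≤ D then (1 : ℝ) else 0) * (D : ℝ) ^ 4) := by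
      intro d1 hd1 d2 hd2
      have a1 := hw d1 hd1
      have a2 := hw d2 hd2
      split_ifs with c1 c2
      · rw [if_pos c1] at a1
        rw [if_pos c2] at a2
        have hl : ((Nat.lcm d1 d2 : ℕ) : ℝ) ≤ (D : ℝ) * D := by
          have h9 : Nat.lcm d1 d2 ≤ d1 * d2 := by
            rw [Nat.mem_divisors] at hd1 hd2
            apply Nat.le_of_dvd
            · exact Nat.mul_pos (Nat.pos_of_ne_zero (ne_zero_of_dvd_ne_zero hd1.2 hd1.1))
                (Nat.pos_of_ne_zero (ne_zero_of_dvd_ne_zero hd2.2 hd2.1))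
            · exact Nat.lcm_dvd_mul d1 d2
          have h10 : Nat.lcm d1 d2 ≤ D * D := h9.trans (Nat.mul_le_mul c1 c2)
          exact_mod_cast h10
        calc |wt s D d1| * |wt s D d2| * ((Nat.lcm d1 d2 : ℕ) : ℝ) ≤ (D : ℝ) * D * (D * D) := by
              gcongr
          _ = 1 * (1 * (D : ℝ) ^ 4) := by ring
      · rw [if_neg c2] at a2
        have : |wt s D d2| = 0 := le_antisymm a2 (abs_nonneg _)
        rw [this]
        simp
      · rw [if_neg c1] at a1
        have : |wt s D d1| = 0 := le_antisymm a1 (abs_nonneg _)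
        rw [this]
        simp
      · rw [if_neg c1] at a1
        have : |wt s D d1| = 0 := le_antisymm a1 (abs_nonneg _)
        rw [this]
        simp
    have e3 : ∑ d ∈ Q.divisors, (if d ≤ D then (1 : ℝ) else 0) ≤ D := by
      rw [← Finset.sum_filter, Finset.sum_const, nsmul_eq_mul, mul_one]
      have : Q.divisors.filter (fun d => d ≤ D) ⊆ Finset.Icc 1 D := by
        intro d hd
        rw [mem_filter, Nat.mem_divisors] at hd
        rw [mem_Icc]
        exact ⟨Nat.pos_of_ne_zero (ne_zero_of_dvd_ne_zero hd.1.2 hd.1.1), hd.2⟩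
      have h6 := Finset.card_le_card this
      rw [Nat.card_Icc, Nat.add_sub_cancel] at h6
      exact_mod_cast h6
    have e3' : 0 ≤ ∑ d ∈ Q.divisors, (if d ≤ D then (1 : ℝ) else 0) :=
      Finset.sum_nonneg (fun d _ => by split_ifs <;> norm_num)
    calc ∑ d1 ∈ Q.divisors, ∑ d2 ∈ Q.divisors,
          |wt s D d1| * |wt s D d2| * ((Nat.lcm d1 d2 : ℕ) : ℝ)
        ≤ ∑ d1 ∈ Q.divisors, ∑ d2 ∈ Q.divisors,
          (if d1 ≤ D then (1 : ℝ) else 0) * ((if d2 ≤ D then (1 : ℝ) else 0) * (D : ℝ) ^ 4) :=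
          Finset.sum_le_sum (fun d1 hd1 => Finset.sum_le_sum (fun d2 hd2 => e2 d1 hd1 d2 hd2))
      _ = (∑ d ∈ Q.divisors, (if d ≤ D then (1 : ℝ) else 0)) *
            ((∑ d ∈ Q.divisors, (if d ≤ D then (1 : ℝ) else 0)) * (D : ℝ) ^ 4) := by
          rw [Finset.sum_mul]
          apply Finset.sum_congr rfl
          intro d1 _
          rw [Finset.sum_mul, Finset.mul_sum]
      _ ≤ (D : ℝ) * (D * (D : ℝ) ^ 4) := by gcongr
      _ = (D : ℝ) ^ 6 := by ring
  rw [hs] at h1 h2 h4 h5
  linarith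

end Pool.Agent.Helper6.Sieve
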