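import Mathlib
import Pool.Agent.Helper6.Sieve.Sift

/-!
A lower bound for the sum in Selberg's sieve.
-/

namespace Pool.Agent.Helper6.Sieve

open Finset BoundingSieve

/-- the completely multiplicative function with `f p = c_p / p` -/
noncomputable def cm (P : Finset ℕ) : ℕ →*₀ ℝ where
  toFun n := if n = 0 then 0 else n.factorization.prod (fun p k => ((cc P p : ℝ) / p) ^ k)
  map_zero' := by simp
  map_one' := by simp
  map_mul' := by
    intro a b
    by_cases ha : a = 0
    · simp [ha]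
    by_cases hb : b = 0
    · simp [hb]
    have hab : a * b ≠ 0 := Nat.mul_ne_zero ha hb
    rw [if_neg hab, if_neg ha, if_neg hb, Nat.factorization_mul ha hb,
      Finsupp.prod_add_index']
    · intro p; simp
    · intro p m n; rw [pow_add]

theorem cm_apply (P : Finset ℕ) {n : ℕ} (hn : n ≠ 0) :
    cm P n = n.factorization.prod (fun p k => ((cc P p : ℝ) / p) ^ k) := by
  change (if n = 0 then (0 : ℝ) else _) = _
  rw [if_neg hn]

theorem cm_prime (P : Finset ℕ) {p : ℕ} (hp : p.Prime) : cm P p = (cc P p : ℝ) / p := by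
  rw [cm_apply P hp.ne_zero, hp.factorization, Finsupp.prod_single_index] <;> simp

theorem cm_nonneg (P : Finset ℕ) (n : ℕ) : 0 ≤ cm P n := by
  by_cases hn : n = 0
  · rw [hn, map_zero]
  · rw [cm_apply P hn]
    unfold Finsupp.prod
    apply Finset.prod_nonneg
    intro p _
    positivity

theorem cm_squarefree {P : Finset ℕ} {hP : ∀ p ∈ P, 3 ≤ p} {D l : ℕ} (hl : Squarefree l) :
    cm P l = (sv P hP D).nu l := by
  rw [sv_nu hl.ne_zero, cm_apply P hl.ne_zero]
  unfold Finsupp.prod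
  rw [Nat.support_factorization]
  apply Finset.prod_congr rfl
  intro p hp
  have hpp := Nat.prime_of_mem_primeFactors hp
  have h1 : l.factorization p ≤ 1 := hl.natFactorization_le_one p
  have h2 : 0 < l.factorization p := hpp.factorization_pos_of_dvd hl.ne_zero
    (Nat.dvd_of_mem_primeFactors hp)
  have h3 : l.factorization p = 1 := by omega
  simp only [h3, pow_one]

theorem cm_prime_lt_one {P : Finset ℕ} (hP : ∀ p ∈ P, 3 ≤ p) {p : ℕ} (hp : p.Prime) :
    cm P p < 1 := by
  rw [cm_prime P hp]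
  have h2' : (0 : ℝ) < p := by exact_mod_cast hp.pos
  rw [div_lt_one h2']
  have h3 : cc P p < p := by
    unfold cc
    split_ifs with h
    · have := hP p h; omega
    · have := hp.two_le; omega
  exact_mod_cast h3

theorem fiber_le {P : Finset ℕ} {hP : ∀ p ∈ P, 3 ≤ p} {D l : ℕ} (hl : l ∣ primorial D)
    (M : Finset ℕ) (hM0 : 0 ∉ M) (hM : ∀ m ∈ M, ∏ p ∈ m.primeFactors, p = l) :
    ∑ m ∈ M, cm P m ≤ (sv P hP D).selbergTerms l := by
  classical
  have hsq : Squarefree l := (squarefree_primorial D).squarefree_of_dvd hl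
  have hnorm : ∀ {p : ℕ}, p.Prime → ‖(cm P).toMonoidHom p‖ < 1 := by
    intro p hp
    change ‖cm P p‖ < 1
    rw [Real.norm_of_nonneg (cm_nonneg P p)]
    exact cm_prime_lt_one hP hp
  have hhas : HasSum (fun m : Nat.factoredNumbers l.primeFactors => cm P m)
      (∏ p ∈ l.primeFactors with p.Prime, (1 - cm P p)⁻¹) :=
    (EulerProduct.summable_and_hasSum_factoredNumbers_prod_filter_prime_geometric
      (f := (cm P).toMonoidHom) hnorm l.primeFactors).2
  have hl0 : l ≠ 0 := hsq.ne_zero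
  -- map `m ↦ m / l`
  have hpf : ∀ m ∈ M, m.primeFactors = l.primeFactors := by
    intro m hm
    rw [← hM m hm, Nat.primeFactors_prod]
    intro p hp
    exact Nat.prime_of_mem_primeFactors hp
  have hdiv : ∀ m ∈ M, l ∣ m := by
    intro m hm
    rw [← hM m hm]
    exact Nat.prod_primeFactors_dvd m
  have hquot : ∀ m ∈ M, m / l ∈ Nat.factoredNumbers l.primeFactors := by
    intro m hm
    have hm0 : m ≠ 0 := by rintro rfl; exact hM0 hm
    rw [Nat.mem_factoredNumbers_iff_primeFactors_subset]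
    constructor
    · have := Nat.div_pos (Nat.le_of_dvd (Nat.pos_of_ne_zero hm0) (hdiv m hm))
        (Nat.pos_of_ne_zero hl0)
      omega
    · rw [← hpf m hm]
      exact Nat.primeFactors_mono (Nat.div_dvd_of_dvd (hdiv m hm)) hm0
  have h1 : ∑ m ∈ M, cm P m = cm P l * ∑ m ∈ M, cm P (m / l) := by
    rw [Finset.mul_sum]
    apply Finset.sum_congr rfl
    intro m hm
    rw [← map_mul, Nat.mul_div_cancel' (hdiv m hm)]
  have h2 : ∑ m ∈ M, cm P (m / l) ≤ ∏ p ∈ l.primeFactors with p.Prime, (1 - cm P p)⁻¹ := by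
    rw [← hhas.tsum_eq]
    have hsum' : Summable (fun m : Nat.factoredNumbers l.primeFactors => cm P m) := hhas.summable
    have hinj : Set.InjOn (fun m => m / l) (M : Set ℕ) := by
      intro a ha b hb hab
      simp only at hab
      have e1 := Nat.mul_div_cancel' (hdiv a ha)
      have e2 := Nat.mul_div_cancel' (hdiv b hb)
      rw [← e1, ← e2, hab]
    have e3 : ∑ m ∈ M, cm P (m / l) = ∑ m' ∈ M.image (fun m => m / l), cm P m' :=
      (Finset.sum_image (f := fun m' => cm P m') (fun a ha b hb h => hinj ha hb h)).symm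
    rw [e3]
    have hsub : ∀ m' ∈ M.image (fun m => m / l), m' ∈ Nat.factoredNumbers l.primeFactors := by
      intro m' hm'
      rw [Finset.mem_image] at hm'
      obtain ⟨m, hm, rfl⟩ := hm'
      exact hquot m hm
    have e4 : ∑ m' ∈ M.image (fun m => m / l), cm P m' =
        ∑ m' ∈ (M.image (fun m => m / l)).attach,
          cm P ((⟨m'.1, hsub m'.1 m'.2⟩ : Nat.factoredNumbers l.primeFactors) : ℕ) := by
      rw [← Finset.sum_attach]
    rw [e4]
    have e5 : ∑ m' ∈ (M.image (fun m => m / l)).attach,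
          cm P ((⟨m'.1, hsub m'.1 m'.2⟩ : Nat.factoredNumbers l.primeFactors) : ℕ) =
        ∑ x ∈ (M.image (fun m => m / l)).attach.image
          (fun m' => (⟨m'.1, hsub m'.1 m'.2⟩ : Nat.factoredNumbers l.primeFactors)), cm P (x : ℕ) := by
      rw [Finset.sum_image]
      intro a _ b _ hab
      have := congrArg Subtype.val hab
      exact Subtype.ext this
    rw [e5]
    exact hsum'.sum_le_tsum _ (fun x _ => cm_nonneg P x)
  have h3 : ∏ p ∈ l.primeFactors with p.Prime, (1 - cm P p)⁻¹ =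
      ∏ p ∈ l.primeFactors, (1 - (sv P hP D).nu p)⁻¹ := by
    rw [Finset.filter_true_of_mem (fun p hp => Nat.prime_of_mem_primeFactors hp)]
    apply Finset.prod_congr rfl
    intro p hp
    have hpp := Nat.prime_of_mem_primeFactors hp
    rw [cm_squarefree (hP := hP) (D := D) hpp.squarefree]
  rw [h1, selbergTerms_apply, ← cm_squarefree hsq, ← h3]
  exact mul_le_mul_of_nonneg_left h2 (cm_nonneg P l)

theorem sum_cm_le {P : Finset ℕ} {hP : ∀ p ∈ P, 3 ≤ p} (D : ℕ) :
    ∑ m ∈ Icc 1 D, cm P m ≤ selSum (sv P hP D) D := by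
  classical
  unfold selSum
  have hmaps : ∀ m ∈ Icc 1 D, ∏ p ∈ m.primeFactors, p ∈
      (sv P hP D).prodPrimes.divisors.filter (fun l => l ≤ D) := by
    intro m hm
    rw [mem_Icc] at hm
    have hm0 : m ≠ 0 := by omega
    have h1 : ∏ p ∈ m.primeFactors, p ∣ m := Nat.prod_primeFactors_dvd m
    have h2 : ∏ p ∈ m.primeFactors, p ≤ m := Nat.le_of_dvd (by omega) h1
    rw [mem_filter, Nat.mem_divisors]
    refine ⟨⟨?_, prodPrimes_ne_zero⟩, by omega⟩
    change _ ∣ primorial D
    apply Finset.prod_primes_dvd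
    · intro p hp
      exact (Nat.prime_of_mem_primeFactors hp).prime
    · intro p hp
      rw [(Nat.prime_of_mem_primeFactors hp).dvd_primorial_iff]
      have := Nat.le_of_mem_primeFactors hp
      omega
  rw [← Finset.sum_fiberwise_of_maps_to hmaps]
  apply Finset.sum_le_sum
  intro l hl
  rw [mem_filter, Nat.mem_divisors] at hl
  apply fiber_le hl.1.1
  · rw [mem_filter, mem_Icc]
    rintro ⟨h, _⟩
    omega
  · intro m hm
    rw [mem_filter] at hm
    exact hm.2

theorem le_cm {P : Finset ℕ} {m : ℕ} (hm : m ≠ 0) :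
    (2 : ℝ) ^ #{p ∈ m.primeFactors | p ∈ P} / m ≤ cm P m := by
  rw [cm_apply P hm]
  unfold Finsupp.prod
  rw [Nat.support_factorization]
  have h1 : ((m : ℕ) : ℝ) = ∏ p ∈ m.primeFactors, (p : ℝ) ^ m.factorization p := by
    have := Nat.prod_factorization_pow_eq_self hm
    unfold Finsupp.prod at this
    rw [Nat.support_factorization] at this
    conv_lhs => rw [← this]
    push_cast
    rfl
  have h2 : ∏ p ∈ m.primeFactors, ((cc P p : ℝ) / p) ^ m.factorization p =
      (∏ p ∈ m.primeFactors, (cc P p : ℝ) ^ m.factorization p) / m := by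
    rw [h1, ← Finset.prod_div_distrib]
    apply Finset.prod_congr rfl
    intro p _
    rw [div_pow]
  rw [h2]
  apply div_le_div_of_nonneg_right _ (by positivity)
  have h3 : (2 : ℝ) ^ #{p ∈ m.primeFactors | p ∈ P} = ∏ p ∈ m.primeFactors, (cc P p : ℝ) := by
    unfold cc
    push_cast
    rw [Finset.prod_ite]
    simp
  rw [h3]
  apply Finset.prod_le_prod
  · intro p _; positivity
  · intro p hp
    have hpp := Nat.prime_of_mem_primeFactors hp
    have h4 : 0 < m.factorization p := hpp.factorization_pos_of_dvd hm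
      (Nat.dvd_of_mem_primeFactors hp)
    have h5 : (1 : ℝ) ≤ cc P p := by exact_mod_cast cc_pos P p
    exact le_self_pow₀ h5 (by omega)

/-- The lower bound for the sum of the sieve. -/
theorem le_selSum {P : Finset ℕ} {hP : ∀ p ∈ P, 3 ≤ p} {R : Finset ℕ} (hR : R ⊆ P)
    (hRp : ∀ p ∈ R, p.Prime) (A : ℕ) :
    (∑ a ∈ Icc 1 A, (1 : ℝ) / a) * ∑ T ∈ R.powerset with ∏ p ∈ T, p ≤ A, 1 / ((∏ p ∈ T, p : ℕ) : ℝ) ≤
      selSum (sv P hP (A * A)) (A * A) := by
  classical
  refine le_trans ?_ (sum_cm_le (A * A))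
  -- lower bound of `cm` by counting subsets
  have h1 : ∀ m ∈ Icc 1 (A * A), ∑ T ∈ R.powerset with (∏ p ∈ T, p ≤ A ∧ ∏ p ∈ T, p ∣ m), (1 : ℝ) / m
      ≤ cm P m := by
    intro m hm
    rw [mem_Icc] at hm
    have hm0 : m ≠ 0 := by omega
    refine le_trans ?_ (le_cm hm0)
    rw [Finset.sum_const, nsmul_eq_mul, mul_one_div]
    apply div_le_div_of_nonneg_right _ (by positivity)
    have h2 : R.powerset.filter (fun T => ∏ p ∈ T, p ≤ A ∧ ∏ p ∈ T, p ∣ m) ⊆
        (m.primeFactors.filter (fun p => p ∈ P)).powerset := by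
      intro T hT
      rw [mem_filter, mem_powerset] at hT
      rw [mem_powerset]
      intro p hp
      rw [mem_filter, Nat.mem_primeFactors]
      exact ⟨⟨hRp p (hT.1 hp), (Finset.dvd_prod_of_mem _ hp).trans hT.2.2, hm0⟩, hR (hT.1 hp)⟩
    have h3 := Finset.card_le_card h2
    rw [Finset.card_powerset] at h3
    exact_mod_cast h3
  refine le_trans ?_ (Finset.sum_le_sum h1)
  have h2 : ∑ m ∈ Icc 1 (A * A),
      ∑ T ∈ R.powerset with (∏ p ∈ T, p ≤ A ∧ ∏ p ∈ T, p ∣ m), (1 : ℝ) / m =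
      ∑ T ∈ R.powerset with ∏ p ∈ T, p ≤ A, ∑ m ∈ Icc 1 (A * A) with ∏ p ∈ T, p ∣ m, (1 : ℝ) / m := by
    simp only [Finset.sum_filter]
    rw [Finset.sum_comm]
    apply Finset.sum_congr rfl
    intro T _
    by_cases hT : ∏ p ∈ T, p ≤ A
    · simp only [hT, true_and, if_true]
    · simp only [hT, false_and, if_false, Finset.sum_const_zero]
  rw [h2, Finset.mul_sum]
  apply Finset.sum_le_sum
  intro T hT
  rw [mem_filter, mem_powerset] at hT
  have hb0 : 0 < ∏ p ∈ T, p := Finset.prod_pos (fun p hp => (hRp p (hT.1 hp)).pos)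
  obtain ⟨b, hb⟩ : ∃ b, b = ∏ p ∈ T, p := ⟨_, rfl⟩
  rw [← hb] at hb0 hT ⊢
  have h3 : (∑ a ∈ Icc 1 A, (1 : ℝ) / a) * (1 / (b : ℝ)) =
      ∑ m ∈ (Icc 1 A).image (fun a => b * a), (1 : ℝ) / m := by
    rw [Finset.sum_image (fun x _ y _ hxy => Nat.eq_of_mul_eq_mul_left hb0 hxy), Finset.sum_mul]
    apply Finset.sum_congr rfl
    intro a ha
    rw [mem_Icc] at ha
    have : (0 : ℝ) < a := by exact_mod_cast ha.1
    have hb' : (0 : ℝ) < b := by exact_mod_cast hb0
    push_cast
    field_simp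
  rw [h3]
  apply Finset.sum_le_sum_of_subset_of_nonneg
  · intro m hm
    rw [Finset.mem_image] at hm
    obtain ⟨a, ha, rfl⟩ := hm
    rw [mem_Icc] at ha
    rw [mem_filter, mem_Icc]
    refine ⟨⟨Nat.mul_pos hb0 ha.1, Nat.mul_le_mul hT.2 ha.2⟩, Dvd.intro _ rfl⟩
  · intro m _ _
    positivity

end Pool.Agent.Helper6.Sieve
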