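import Mathlib
import Pool.Agent.Helper6.Sieve.Lower

/-!
Rankin's trick, and the resulting upper bound for the number of primes of a set `P` none of whose
elements divides `p - 1` for another element `p`.
-/

namespace Pool.Agent.Helper6.Sieve

open Finset BoundingSieve

theorem sum_log_div (i : ℕ) :
    ∑ p ∈ Nat.primesLE (2 ^ i), Real.log p / p ≤ 2 * Real.log 4 * i := by
  induction i with
  | zero =>
    have : Nat.primesLE (2 ^ 0) = ∅ := by
      ext p
      rw [Nat.mem_primesLE]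
      simp only [pow_zero, notMem_empty, iff_false]
      rintro ⟨h1, h2⟩
      have := h2.two_le
      omega
    rw [this]
    simp
  | succ i ih =>
    rw [← Finset.sum_filter_add_sum_filter_not (Nat.primesLE (2 ^ (i + 1))) (fun p => p ≤ 2 ^ i)]
    have h1 : (Nat.primesLE (2 ^ (i + 1))).filter (fun p => p ≤ 2 ^ i) = Nat.primesLE (2 ^ i) := by
      ext p
      rw [mem_filter, Nat.mem_primesLE, Nat.mem_primesLE, pow_succ]
      constructor
      · rintro ⟨⟨_, h2⟩, h3⟩; exact ⟨h3, h2⟩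
      · rintro ⟨h2, h3⟩; exact ⟨⟨by omega, h3⟩, h2⟩
    rw [h1]
    have h2 : ∑ p ∈ (Nat.primesLE (2 ^ (i + 1))).filter (fun p => ¬ p ≤ 2 ^ i), Real.log p / p ≤
        2 * Real.log 4 := by
      have h3 : ∀ p ∈ (Nat.primesLE (2 ^ (i + 1))).filter (fun p => ¬ p ≤ 2 ^ i),
          Real.log p / p ≤ Real.log p * (1 / 2 ^ i) := by
        intro p hp
        rw [mem_filter, Nat.mem_primesLE] at hp
        have h4 : (2 : ℝ) ^ i ≤ p := by
          have : 2 ^ i ≤ p := by omega
          exact_mod_cast this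
        have h5 : 0 ≤ Real.log p := Real.log_nonneg (by
          have := hp.1.2.one_lt.le
          exact_mod_cast this)
        rw [div_eq_mul_one_div]
        apply mul_le_mul_of_nonneg_left _ h5
        exact one_div_le_one_div_of_le (by positivity) h4
      refine (Finset.sum_le_sum h3).trans ?_
      rw [← Finset.sum_mul]
      have h4 : ∑ p ∈ (Nat.primesLE (2 ^ (i + 1))).filter (fun p => ¬ p ≤ 2 ^ i), Real.log p ≤
          ∑ p ∈ Nat.primesLE (2 ^ (i + 1)), Real.log p := by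
        apply Finset.sum_le_sum_of_subset_of_nonneg (Finset.filter_subset _ _)
        intro p hp _
        rw [Nat.mem_primesLE] at hp
        exact Real.log_nonneg (by have := hp.2.one_lt.le; exact_mod_cast this)
      rw [← Chebyshev.theta_eq_sum_primesLE_log] at h4
      have h5 := Chebyshev.theta_le_log4_mul_x (x := ((2 ^ (i + 1) : ℕ) : ℝ)) (by positivity)
      have h6 : (0 : ℝ) < 2 ^ i := by positivity
      calc (∑ p ∈ (Nat.primesLE (2 ^ (i + 1))).filter (fun p => ¬ p ≤ 2 ^ i), Real.log p) *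
            (1 / 2 ^ i) ≤ (Real.log 4 * ((2 ^ (i + 1) : ℕ) : ℝ)) * (1 / 2 ^ i) :=
            mul_le_mul_of_nonneg_right (h4.trans h5) (by positivity)
        _ = 2 * Real.log 4 := by
            push_cast
            rw [pow_succ]
            field_simp
    push_cast
    linarith

/-- Rankin's trick -/
theorem rankin {R : Finset ℕ} {i : ℕ} (hi : 1 ≤ i) (hRp : ∀ p ∈ R, p.Prime) (hRi : ∀ p ∈ R, p ≤ 2 ^ i) :
    (∏ p ∈ R, (1 + 1 / (p : ℝ))) / 2 ≤
      ∑ T ∈ R.powerset with ∏ p ∈ T, p ≤ 2 ^ (9 * i), 1 / ((∏ p ∈ T, p : ℕ) : ℝ) := by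
  classical
  have hl2 : 0 < Real.log 2 := Real.log_pos (by norm_num)
  have hi' : (0 : ℝ) < i := by exact_mod_cast hi
  obtain ⟨δ, hδ⟩ : ∃ δ : ℝ, δ = 1 / (i * Real.log 2) := ⟨_, rfl⟩
  have hδ0 : 0 < δ := by rw [hδ]; positivity
  have hE : ∏ p ∈ R, (1 + 1 / (p : ℝ)) = ∑ T ∈ R.powerset, 1 / ((∏ p ∈ T, p : ℕ) : ℝ) := by
    rw [Finset.prod_one_add]
    apply Finset.sum_congr rfl
    intro T _
    push_cast
    rw [Finset.prod_div_distrib, Finset.prod_const_one]
  have hsplit := Finset.sum_filter_add_sum_filter_not R.powerset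
    (fun T => ∏ p ∈ T, p ≤ 2 ^ (9 * i)) (fun T => 1 / ((∏ p ∈ T, p : ℕ) : ℝ))
  have hEpos : 0 < ∏ p ∈ R, (1 + 1 / (p : ℝ)) := Finset.prod_pos (fun p _ => by positivity)
  -- the tail
  have htail : ∑ T ∈ R.powerset with ¬ ∏ p ∈ T, p ≤ 2 ^ (9 * i), 1 / ((∏ p ∈ T, p : ℕ) : ℝ) ≤
      Real.exp (-1) * ∏ p ∈ R, (1 + 1 / (p : ℝ)) := by
    have h1 : ∀ T ∈ R.powerset.filter (fun T => ¬ ∏ p ∈ T, p ≤ 2 ^ (9 * i)),
        1 / ((∏ p ∈ T, p : ℕ) : ℝ) ≤
          Real.exp (-9) * ∏ p ∈ T, (Real.exp (δ * Real.log p) / p) := by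
      intro T hT
      rw [mem_filter, mem_powerset] at hT
      have hb0 : 0 < ∏ p ∈ T, p := Finset.prod_pos (fun p hp => (hRp p (hT.1 hp)).pos)
      have hb0' : (0 : ℝ) < ((∏ p ∈ T, p : ℕ) : ℝ) := by exact_mod_cast hb0
      have hb1 : (2 : ℝ) ^ (9 * i) ≤ ((∏ p ∈ T, p : ℕ) : ℝ) := by
        have := hT.2
        have : 2 ^ (9 * i) ≤ ∏ p ∈ T, p := by omega
        exact_mod_cast this
      have h2 : ∏ p ∈ T, (Real.exp (δ * Real.log p) / p) =
          Real.exp (δ * Real.log ((∏ p ∈ T, p : ℕ) : ℝ)) / ((∏ p ∈ T, p : ℕ) : ℝ) := by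
        rw [Finset.prod_div_distrib, ← Real.exp_sum, ← Finset.mul_sum]
        push_cast
        rw [Real.log_prod]
        intro p hp
        have := (hRp p (hT.1 hp)).pos
        have : (0 : ℝ) < p := by exact_mod_cast this
        exact this.ne'
      rw [h2, ← mul_div_assoc, ← Real.exp_add]
      apply div_le_div_of_nonneg_right _ hb0'.le
      rw [Real.one_le_exp_iff]
      have h3 : Real.log ((2 : ℝ) ^ (9 * i)) ≤ Real.log ((∏ p ∈ T, p : ℕ) : ℝ) :=
        Real.log_le_log (by positivity) hb1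
      rw [Real.log_pow] at h3
      have h4 : δ * (((9 * i : ℕ) : ℝ) * Real.log 2) = 9 := by
        rw [hδ]
        push_cast
        field_simp
      have h5 := mul_le_mul_of_nonneg_left h3 hδ0.le
      linarith
    refine (Finset.sum_le_sum h1).trans ?_
    rw [← Finset.mul_sum]
    have h2 : ∑ T ∈ R.powerset with ¬ ∏ p ∈ T, p ≤ 2 ^ (9 * i),
        ∏ p ∈ T, (Real.exp (δ * Real.log p) / p) ≤ ∏ p ∈ R, (1 + Real.exp (δ * Real.log p) / p) := by
      rw [Finset.prod_one_add]
      apply Finset.sum_le_sum_of_subset_of_nonneg (Finset.filter_subset _ _)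
      intro T _ _
      apply Finset.prod_nonneg
      intro p _
      positivity
    have h3 : ∏ p ∈ R, (1 + Real.exp (δ * Real.log p) / p) ≤
        (∏ p ∈ R, (1 + 1 / (p : ℝ))) * Real.exp 8 := by
      have h4 : ∀ p ∈ R, 1 + Real.exp (δ * Real.log p) / p ≤
          (1 + 1 / (p : ℝ)) * Real.exp (2 * δ * (Real.log p / p)) := by
        intro p hp
        have hp0 : (0 : ℝ) < p := by exact_mod_cast (hRp p hp).pos
        have hlp : 0 ≤ Real.log p := Real.log_nonneg (by
          have := (hRp p hp).one_lt.le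
          exact_mod_cast this)
        obtain ⟨t, ht⟩ : ∃ t, t = δ * Real.log p := ⟨_, rfl⟩
        have ht0 : 0 ≤ t := by rw [ht]; positivity
        have ht1 : t ≤ 1 := by
          have h5 : Real.log p ≤ i * Real.log 2 := by
            have h6 : (p : ℝ) ≤ 2 ^ i := by exact_mod_cast hRi p hp
            have h7 := Real.log_le_log hp0 h6
            rwa [Real.log_pow] at h7
          rw [ht, hδ, one_div_mul_eq_div, div_le_one (by positivity)]
          exact h5
        have h6 : Real.exp t ≤ 1 + 2 * t := by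
          have h7 := Real.abs_exp_sub_one_sub_id_le (x := t) (by rw [abs_of_nonneg ht0]; exact ht1)
          have h8 := (abs_le.mp h7).2
          nlinarith
        have h7 : 2 * δ * (Real.log p / p) = 2 * t / p := by rw [ht]; ring
        rw [h7, ← ht]
        have h8 : 2 * t / p + 1 ≤ Real.exp (2 * t / p) := Real.add_one_le_exp _
        have h9 : 0 ≤ 2 * t / (p : ℝ) := by positivity
        calc 1 + Real.exp t / p ≤ 1 + (1 + 2 * t) / p := by gcongr
          _ = 1 + 1 / p + 2 * t / p := by ring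
          _ ≤ (1 + 1 / (p : ℝ)) * (2 * t / p + 1) := by
              have : 0 ≤ 1 / (p : ℝ) * (2 * t / p) := by positivity
              nlinarith
          _ ≤ _ := by gcongr
      calc ∏ p ∈ R, (1 + Real.exp (δ * Real.log p) / p)
          ≤ ∏ p ∈ R, ((1 + 1 / (p : ℝ)) * Real.exp (2 * δ * (Real.log p / p))) := by
            apply Finset.prod_le_prod
            · intro p _; positivity
            · exact h4
        _ = (∏ p ∈ R, (1 + 1 / (p : ℝ))) * Real.exp (2 * δ * ∑ p ∈ R, Real.log p / p) := by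
            rw [Finset.prod_mul_distrib, ← Real.exp_sum, ← Finset.mul_sum]
        _ ≤ (∏ p ∈ R, (1 + 1 / (p : ℝ))) * Real.exp 8 := by
            apply mul_le_mul_of_nonneg_left _ hEpos.le
            apply Real.exp_le_exp.mpr
            have h5 : ∑ p ∈ R, Real.log p / p ≤ ∑ p ∈ Nat.primesLE (2 ^ i), Real.log p / p := by
              apply Finset.sum_le_sum_of_subset_of_nonneg
              · intro p hp
                rw [Nat.mem_primesLE]
                exact ⟨hRi p hp, hRp p hp⟩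
              · intro p hp _
                rw [Nat.mem_primesLE] at hp
                apply div_nonneg _ (by positivity)
                exact Real.log_nonneg (by have := hp.2.one_lt.le; exact_mod_cast this)
            have h6 := sum_log_div i
            have h7 : Real.log 4 = 2 * Real.log 2 := by
              rw [show (4 : ℝ) = 2 ^ 2 by norm_num, Real.log_pow]
              norm_num
            rw [h7] at h6
            have h8 : 2 * δ * (2 * (2 * Real.log 2) * i) = 8 := by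
              rw [hδ]; field_simp; norm_num
            calc 2 * δ * ∑ p ∈ R, Real.log p / p ≤ 2 * δ * (2 * (2 * Real.log 2) * i) := by
                  apply mul_le_mul_of_nonneg_left (h5.trans h6) (by positivity)
              _ = 8 := h8
    calc Real.exp (-9) * ∑ T ∈ R.powerset with ¬ ∏ p ∈ T, p ≤ 2 ^ (9 * i),
          ∏ p ∈ T, (Real.exp (δ * Real.log p) / p)
        ≤ Real.exp (-9) * ((∏ p ∈ R, (1 + 1 / (p : ℝ))) * Real.exp 8) :=
          mul_le_mul_of_nonneg_left (h2.trans h3) (Real.exp_pos _).le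
      _ = Real.exp (-1) * ∏ p ∈ R, (1 + 1 / (p : ℝ)) := by
          rw [mul_comm (∏ p ∈ R, (1 + 1 / (p : ℝ))), ← mul_assoc, ← Real.exp_add]
          norm_num
  have he : Real.exp (-1) ≤ 1 / 2 := by
    rw [Real.exp_neg, inv_eq_one_div]
    apply one_div_le_one_div_of_le (by norm_num)
    have := Real.add_one_le_exp (1 : ℝ)
    linarith
  have h6 : Real.exp (-1) * ∏ p ∈ R, (1 + 1 / (p : ℝ)) ≤ 1 / 2 * ∏ p ∈ R, (1 + 1 / (p : ℝ)) :=
    mul_le_mul_of_nonneg_right he hEpos.le
  rw [← hE] at hsplit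
  linarith

theorem harmonic_lower (i : ℕ) : (6 : ℝ) * i ≤ ∑ a ∈ Icc (1 : ℕ) (2 ^ (9 * i)), (1 : ℝ) / (a : ℝ) := by
  have h1 := log_add_one_le_harmonic (2 ^ (9 * i))
  have h2 : ((harmonic (2 ^ (9 * i)) : ℚ) : ℝ) = ∑ a ∈ Icc (1 : ℕ) (2 ^ (9 * i)), (1 : ℝ) / (a : ℝ) := by
    rw [harmonic_eq_sum_Icc]
    push_cast
    apply Finset.sum_congr rfl
    intro a _
    rw [one_div]
  rw [h2] at h1
  refine le_trans ?_ h1
  have h3 : Real.log ((2 : ℝ) ^ (9 * i)) ≤ Real.log (((2 ^ (9 * i) + 1 : ℕ) : ℝ)) := by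
    apply Real.log_le_log (by positivity)
    push_cast
    linarith
  rw [Real.log_pow] at h3
  refine le_trans ?_ h3
  have h4 : (0.6931 : ℝ) < Real.log 2 := by linarith [Real.log_two_gt_d9]
  push_cast
  have h5 : (0 : ℝ) ≤ i := by positivity
  nlinarith

/-- The lower bound for the sum in the sieve. -/
theorem le_selSum' {P : Finset ℕ} {hP : ∀ p ∈ P, 3 ≤ p} (hPp : ∀ p ∈ P, p.Prime) {i : ℕ} (hi : 1 ≤ i) :
    3 * i * ∏ p ∈ P with p ≤ 2 ^ i, (1 + 1 / (p : ℝ)) ≤
      selSum (sv P hP (2 ^ (9 * i) * 2 ^ (9 * i))) (2 ^ (9 * i) * 2 ^ (9 * i)) := by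
  classical
  have h1 := le_selSum (hP := hP) (R := P.filter (fun p => p ≤ 2 ^ i)) (Finset.filter_subset _ _)
    (fun p hp => hPp p (mem_filter.mp hp).1) (2 ^ (9 * i))
  have h2 := rankin (R := P.filter (fun p => p ≤ 2 ^ i)) hi
    (fun p hp => hPp p (mem_filter.mp hp).1) (fun p hp => (mem_filter.mp hp).2)
  have h3 := harmonic_lower i
  refine le_trans ?_ h1
  have hE : 0 ≤ ∏ p ∈ P with p ≤ 2 ^ i, (1 + 1 / (p : ℝ)) := Finset.prod_nonneg (fun p _ => by positivity)
  calc 3 * i * ∏ p ∈ P with p ≤ 2 ^ i, (1 + 1 / (p : ℝ))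
      = (6 * i) * ((∏ p ∈ P with p ≤ 2 ^ i, (1 + 1 / (p : ℝ))) / 2) := by ring
    _ ≤ _ := mul_le_mul h3 h2 (by positivity) (le_trans (by positivity) h3)

/-- The number of elements of `P` below `X`. -/
theorem card_le {P : Finset ℕ} (hP : ∀ p ∈ P, 3 ≤ p) (hPp : ∀ p ∈ P, p.Prime)
    (hcyc : ∀ p ∈ P, ∀ q ∈ P, ¬ q ∣ p - 1) {i : ℕ} (hi : 1 ≤ i) (X : ℕ) :
    (#{p ∈ P | p < X} : ℝ) ≤
      X / (3 * i * ∏ p ∈ P with p ≤ 2 ^ i, (1 + 1 / (p : ℝ))) + 2 * 2 ^ (108 * i) := by
  classical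
  obtain ⟨D, hD⟩ : ∃ D, D = 2 ^ (9 * i) * 2 ^ (9 * i) := ⟨_, rfl⟩
  have hD1 : 1 ≤ D := by rw [hD]; exact Nat.mul_pos (by positivity) (by positivity)
  have h1 := sift_bound P hP D X hD1
  have h2 := le_selSum' (hP := hP) hPp hi
  rw [← hD] at h2
  have hE : 1 ≤ ∏ p ∈ P with p ≤ 2 ^ i, (1 + 1 / (p : ℝ)) := by
    calc (1 : ℝ) = ∏ _p ∈ P.filter (fun p => p ≤ 2 ^ i), (1 : ℝ) := by simp
      _ ≤ _ := by
        apply Finset.prod_le_prod
        · intro p _; norm_num
        · intro p _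
          have : 0 ≤ 1 / (p : ℝ) := by positivity
          linarith
  have hi' : (1 : ℝ) ≤ i := by exact_mod_cast hi
  have hpos : 0 < 3 * i * ∏ p ∈ P with p ≤ 2 ^ i, (1 + 1 / (p : ℝ)) := by positivity
  have h3 : (X : ℝ) * (selSum (sv P hP D) D)⁻¹ ≤
      X / (3 * i * ∏ p ∈ P with p ≤ 2 ^ i, (1 + 1 / (p : ℝ))) := by
    rw [div_eq_mul_inv]
    apply mul_le_mul_of_nonneg_left _ (by positivity)
    exact inv_anti₀ hpos h2
  have h4 : #{p ∈ P | p < X} ≤ D + #{n ∈ range X | ∀ l ∈ Nat.primesLE D, ¬ Bad P l n} := by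
    have h5 : P.filter (fun p => p < X) ⊆
        Finset.Icc 1 D ∪ (range X).filter (fun n => ∀ l ∈ Nat.primesLE D, ¬ Bad P l n) := by
      intro p hp
      rw [mem_filter] at hp
      rw [mem_union, mem_Icc, mem_filter, mem_range]
      rcases Nat.lt_or_ge D p with hlt | hge
      · right
        refine ⟨hp.2, ?_⟩
        intro l hl hbad
        rw [Nat.mem_primesLE] at hl
        rcases hbad with hb | ⟨hlP, hb⟩
        · have := (Nat.prime_dvd_prime_iff_eq hl.2 (hPp p hp.1)).mp (Nat.dvd_of_mod_eq_zero hb)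
          omega
        · apply hcyc p hp.1 l hlP
          have h6 : p ≡ 1 [MOD l] := by
            unfold Nat.ModEq
            rw [hb, Nat.mod_eq_of_lt hl.2.one_lt]
          exact (Nat.modEq_iff_dvd' (by have := hP p hp.1; omega)).mp h6.symm
      · left
        exact ⟨by have := hP p hp.1; omega, hge⟩
    have h6 := (Finset.card_le_card h5).trans (Finset.card_union_le _ _)
    rw [Nat.card_Icc, Nat.add_sub_cancel] at h6
    exact h6
  have h4' : (#{p ∈ P | p < X} : ℝ) ≤
      D + (#{n ∈ range X | ∀ l ∈ Nat.primesLE D, ¬ Bad P l n} : ℝ) := by exact_mod_cast h4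
  have h5 : (D : ℝ) = 2 ^ (18 * i) := by
    rw [hD]
    push_cast
    rw [← pow_add]
    congr 1
    ring
  have h6 : (D : ℝ) ^ 6 = 2 ^ (108 * i) := by
    rw [h5, ← pow_mul]
    congr 1
    ring
  have h7 : (2 : ℝ) ^ (18 * i) ≤ 2 ^ (108 * i) := pow_le_pow_right₀ (by norm_num) (by omega)
  linarith

end Pool.Agent.Helper6.Sieve
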