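import Mathlib
import Pool.Agent.Helper6.Sieve.Rankin

/-!
A finite set `P` of odd primes none of which divides `p - 1` for another `p ∈ P` satisfies
`∏ p / (p - 1) ≤ C log log #P`.
-/

namespace Pool.Agent.Helper6.Sieve

open Finset

/-- the partial product up to `2 ^ i` -/
noncomputable def G (P : Finset ℕ) (i : ℕ) : ℝ := ∏ p ∈ P with p ≤ 2 ^ i, (1 + 1 / (p : ℝ))

theorem prod_mono_subset {s t : Finset ℕ} (h : s ⊆ t) (f : ℕ → ℝ) (hf : ∀ k, 1 ≤ f k) :
    ∏ k ∈ s, f k ≤ ∏ k ∈ t, f k := by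
  classical
  rw [← Finset.prod_sdiff h]
  apply le_mul_of_one_le_left
  · exact Finset.prod_nonneg (fun k _ => le_trans zero_le_one (hf k))
  · calc (1 : ℝ) = ∏ _k ∈ t \ s, (1 : ℝ) := by simp
      _ ≤ _ := Finset.prod_le_prod (fun _ _ => zero_le_one) (fun k _ => hf k)

theorem one_le_prod_one_add (P : Finset ℕ) : (1 : ℝ) ≤ ∏ p ∈ P, (1 + 1 / (p : ℝ)) := by
  calc (1 : ℝ) = ∏ _p ∈ P, (1 : ℝ) := by simp
    _ ≤ _ := by
      apply Finset.prod_le_prod
      · intro p _; norm_num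
      · intro p _
        have : 0 ≤ 1 / (p : ℝ) := by positivity
        linarith

theorem one_le_G (P : Finset ℕ) (i : ℕ) : 1 ≤ G P i := one_le_prod_one_add _

theorem G_le (P : Finset ℕ) (hP : ∀ p ∈ P, 3 ≤ p) (i : ℕ) : G P i ≤ 2 ^ i + 1 := by
  have h1 : ∀ n : ℕ, ∏ k ∈ Icc (1 : ℕ) n, (1 + 1 / (k : ℝ)) = n + 1 := by
    intro n
    induction n with
    | zero => simp
    | succ n ih =>
      rw [Finset.prod_Icc_succ_top (by omega), ih]
      push_cast
      have : (n : ℝ) + 1 ≠ 0 := by positivity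
      field_simp
  have h2 := h1 (2 ^ i)
  push_cast at h2
  rw [← h2]
  unfold G
  apply prod_mono_subset (f := fun p : ℕ => 1 + 1 / (p : ℝ))
  · intro p hp
    rw [mem_filter] at hp
    rw [mem_Icc]
    exact ⟨by have := hP p hp.1; omega, hp.2⟩
  · intro k
    have : 0 ≤ 1 / (k : ℝ) := by positivity
    linarith

/-- dyadic decomposition -/
theorem block_sum (P : Finset ℕ) (a b : ℕ) (hab : a ≤ b) :
    ∑ p ∈ P with (2 ^ a < p ∧ p ≤ 2 ^ b), (1 : ℝ) / p ≤
      ∑ J ∈ Ico a b, (#{p ∈ P | p < 2 ^ (J + 1) + 1} : ℝ) / 2 ^ J := by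
  induction b, hab using Nat.le_induction with
  | base =>
    rw [Finset.filter_false_of_mem]
    · simp
    · intro p _ h
      omega
  | succ b hb ih =>
    rw [Finset.sum_Ico_succ_top hb]
    have h1 : P.filter (fun p => 2 ^ a < p ∧ p ≤ 2 ^ (b + 1)) ⊆
        P.filter (fun p => 2 ^ a < p ∧ p ≤ 2 ^ b) ∪
          P.filter (fun p => 2 ^ b < p ∧ p ≤ 2 ^ (b + 1)) := by
      intro p hp
      rw [mem_filter] at hp
      rw [mem_union, mem_filter, mem_filter]
      rcases Nat.lt_or_ge (2 ^ b) p with h | h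
      · right; exact ⟨hp.1, h, hp.2.2⟩
      · left; exact ⟨hp.1, hp.2.1, h⟩
    have h2 : ∑ p ∈ P with (2 ^ a < p ∧ p ≤ 2 ^ (b + 1)), (1 : ℝ) / p ≤
        ∑ p ∈ P with (2 ^ a < p ∧ p ≤ 2 ^ b), (1 : ℝ) / p +
          ∑ p ∈ P with (2 ^ b < p ∧ p ≤ 2 ^ (b + 1)), (1 : ℝ) / p := by
      refine (Finset.sum_le_sum_of_subset_of_nonneg h1 (fun p _ _ => by positivity)).trans ?_
      rw [← Finset.sum_union_inter]
      have : 0 ≤ ∑ p ∈ P.filter (fun p => 2 ^ a < p ∧ p ≤ 2 ^ b) ∩
          P.filter (fun p => 2 ^ b < p ∧ p ≤ 2 ^ (b + 1)), (1 : ℝ) / p :=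
        Finset.sum_nonneg (fun p _ => by positivity)
      linarith
    have h3 : ∑ p ∈ P with (2 ^ b < p ∧ p ≤ 2 ^ (b + 1)), (1 : ℝ) / p ≤
        (#{p ∈ P | p < 2 ^ (b + 1) + 1} : ℝ) / 2 ^ b := by
      calc ∑ p ∈ P with (2 ^ b < p ∧ p ≤ 2 ^ (b + 1)), (1 : ℝ) / p
          ≤ ∑ _p ∈ P with (2 ^ b < _p ∧ _p ≤ 2 ^ (b + 1)), (1 : ℝ) / 2 ^ b := by
            apply Finset.sum_le_sum
            intro p hp
            rw [mem_filter] at hp
            apply one_div_le_one_div_of_le (by positivity)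
            have := hp.2.1.le
            exact_mod_cast this
        _ = (#{p ∈ P | 2 ^ b < p ∧ p ≤ 2 ^ (b + 1)} : ℝ) / 2 ^ b := by
            rw [Finset.sum_const, nsmul_eq_mul, mul_one_div]
        _ ≤ _ := by
            apply div_le_div_of_nonneg_right _ (by positivity)
            have : P.filter (fun p => 2 ^ b < p ∧ p ≤ 2 ^ (b + 1)) ⊆
                P.filter (fun p => p < 2 ^ (b + 1) + 1) := by
              intro p hp
              rw [mem_filter] at hp ⊢
              exact ⟨hp.1, by omega⟩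
            exact_mod_cast Finset.card_le_card this
    linarith

theorem geom_small (i : ℕ) (b : ℕ) (hab : 128 * i ≤ b) :
    ∑ J ∈ Ico (128 * i) b, (2 : ℝ) * 2 ^ (108 * i) / 2 ^ J ≤ 4 / 2 ^ (20 * i) := by
  have key : ∀ b, 128 * i ≤ b → ∑ J ∈ Ico (128 * i) b, (2 : ℝ) * 2 ^ (108 * i) / 2 ^ J ≤
      4 / 2 ^ (20 * i) - 4 * 2 ^ (108 * i) / 2 ^ b := by
    intro b hb
    induction b, hb using Nat.le_induction with
    | base =>
      have h1 : (2 : ℝ) ^ (128 * i) = 2 ^ (108 * i) * 2 ^ (20 * i) := by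
        rw [← pow_add]; congr 1; ring
      rw [Finset.Ico_self, Finset.sum_empty, h1]
      have h2 : (2 : ℝ) ^ (108 * i) ≠ 0 := by positivity
      have h3 : (2 : ℝ) ^ (20 * i) ≠ 0 := by positivity
      apply le_of_eq
      field_simp
      ring
    | succ b hb ih =>
      rw [Finset.sum_Ico_succ_top hb]
      have h1 : (4 : ℝ) * 2 ^ (108 * i) / 2 ^ (b + 1) = 2 * 2 ^ (108 * i) / 2 ^ b := by
        rw [pow_succ]
        field_simp
        ring
      have h2 : (4 : ℝ) * 2 ^ (108 * i) / 2 ^ b = 2 * (2 * 2 ^ (108 * i) / 2 ^ b) := by ring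
      rw [h1]
      linarith
  have h := key b hab
  have : 0 ≤ 4 * (2 : ℝ) ^ (108 * i) / 2 ^ b := by positivity
  linarith

/-- the recursion -/
theorem G_rec {P : Finset ℕ} (hP : ∀ p ∈ P, 3 ≤ p) (hPp : ∀ p ∈ P, p.Prime)
    (hcyc : ∀ p ∈ P, ∀ q ∈ P, ¬ q ∣ p - 1) {i : ℕ} (hi : 1 ≤ i) :
    G P (128 * (128 * i)) ≤ G P (128 * i) * Real.exp (32768 / G P i) := by
  classical
  have hG1 := one_le_G P i
  have hi' : (1 : ℝ) ≤ i := by exact_mod_cast hi
  have hs : ∑ p ∈ P with (2 ^ (128 * i) < p ∧ p ≤ 2 ^ (128 * (128 * i))), (1 : ℝ) / p ≤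
      32768 / G P i := by
    refine (block_sum P _ _ (by omega)).trans ?_
    have h1 : ∀ J ∈ Ico (128 * i) (128 * (128 * i)), (#{p ∈ P | p < 2 ^ (J + 1) + 1} : ℝ) / 2 ^ J ≤
        4 / (3 * i * G P i) + 2 * 2 ^ (108 * i) / 2 ^ J := by
      intro J _
      have h2 := card_le hP hPp hcyc hi (2 ^ (J + 1) + 1)
      have h3 : (((2 ^ (J + 1) + 1 : ℕ)) : ℝ) ≤ 4 * 2 ^ J := by
        push_cast
        have : (1 : ℝ) ≤ 2 ^ J := one_le_pow₀ (by norm_num)
        rw [pow_succ]
        linarith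
      have hpos : 0 < 3 * i * G P i := by positivity
      have h4 : (#{p ∈ P | p < 2 ^ (J + 1) + 1} : ℝ) ≤
          4 * 2 ^ J / (3 * i * G P i) + 2 * 2 ^ (108 * i) := by
        refine h2.trans ?_
        unfold G at hpos ⊢
        gcongr
      rw [div_le_iff₀ (by positivity)]
      refine h4.trans (le_of_eq ?_)
      have : (2 : ℝ) ^ J ≠ 0 := by positivity
      field_simp
    refine (Finset.sum_le_sum h1).trans ?_
    rw [Finset.sum_add_distrib, Finset.sum_const, Nat.card_Ico, nsmul_eq_mul]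
    have h2 := geom_small i (128 * (128 * i)) (by omega)
    have h3 : (((128 * (128 * i) - 128 * i : ℕ)) : ℝ) ≤ 16384 * i := by
      have : 128 * (128 * i) - 128 * i ≤ 16384 * i := by omega
      exact_mod_cast this
    have h4 : (((128 * (128 * i) - 128 * i : ℕ)) : ℝ) * (4 / (3 * i * G P i)) ≤ 21846 / G P i := by
      calc (((128 * (128 * i) - 128 * i : ℕ)) : ℝ) * (4 / (3 * i * G P i)) ≤
            16384 * i * (4 / (3 * i * G P i)) := by gcongr
        _ = (65536 / 3) / G P i := by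
            have h5 : (i : ℝ) ≠ 0 := by positivity
            have h6 : G P i ≠ 0 := by positivity
            field_simp
            norm_num
        _ ≤ 21846 / G P i := by gcongr; norm_num
    have h5 : 4 / (2 : ℝ) ^ (20 * i) ≤ 1 / G P i := by
      have h6 := G_le P hP i
      have h7 : (2 : ℝ) ^ (20 * i) = 2 ^ (19 * i) * 2 ^ i := by rw [← pow_add]; congr 1; ring
      have h8 : (8 : ℝ) ≤ 2 ^ (19 * i) := by
        calc (8 : ℝ) = 2 ^ 3 := by norm_num
          _ ≤ 2 ^ (19 * i) := pow_le_pow_right₀ (by norm_num) (by omega)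
      have h9 : (1 : ℝ) ≤ 2 ^ i := one_le_pow₀ (by norm_num)
      rw [div_le_div_iff₀ (by positivity) (by positivity), h7]
      nlinarith
    have h6 : 21846 / G P i + 1 / G P i ≤ 32768 / G P i := by
      rw [← add_div]
      gcongr
      norm_num
    linarith
  have hsplit : G P (128 * (128 * i)) ≤ G P (128 * i) *
      ∏ p ∈ P with (2 ^ (128 * i) < p ∧ p ≤ 2 ^ (128 * (128 * i))), (1 + 1 / (p : ℝ)) := by
    unfold G
    rw [← Finset.prod_union]
    · apply prod_mono_subset (f := fun p : ℕ => 1 + 1 / (p : ℝ))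
      · intro p hp
        rw [mem_filter] at hp
        rw [mem_union, mem_filter, mem_filter]
        rcases Nat.lt_or_ge (2 ^ (128 * i)) p with h | h
        · right; exact ⟨hp.1, h, hp.2⟩
        · left; exact ⟨hp.1, h⟩
      · intro k
        have : 0 ≤ 1 / (k : ℝ) := by positivity
        linarith
    · rw [Finset.disjoint_left]
      intro p hp hq
      rw [mem_filter] at hp hq
      omega
  refine hsplit.trans ?_
  have hGpos : 0 ≤ G P (128 * i) := le_trans zero_le_one (one_le_G P _)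
  apply mul_le_mul_of_nonneg_left _ hGpos
  calc ∏ p ∈ P with (2 ^ (128 * i) < p ∧ p ≤ 2 ^ (128 * (128 * i))), (1 + 1 / (p : ℝ))
      ≤ ∏ p ∈ P with (2 ^ (128 * i) < p ∧ p ≤ 2 ^ (128 * (128 * i))), Real.exp (1 / (p : ℝ)) := by
        apply Finset.prod_le_prod
        · intro p _; positivity
        · intro p _
          have := Real.add_one_le_exp (1 / (p : ℝ))
          linarith
    _ = Real.exp (∑ p ∈ P with (2 ^ (128 * i) < p ∧ p ≤ 2 ^ (128 * (128 * i))), 1 / (p : ℝ)) := by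
        rw [Real.exp_sum]
    _ ≤ _ := Real.exp_le_exp.mpr hs

theorem rec_bound (a : ℕ → ℝ) (c B : ℝ) (hc : 0 ≤ c) (h1 : ∀ r, 1 ≤ a r) (hB : a 1 ≤ B)
    (hrec : ∀ r, a (r + 2) ≤ a (r + 1) * Real.exp (c / a r)) (r : ℕ) :
    a (r + 1) ≤ B + r * (c * Real.exp c * (Real.exp c + B)) := by
  have hB1 : 1 ≤ B := (h1 1).trans hB
  have hec : 0 < Real.exp c := Real.exp_pos c
  have hdiv : ∀ r, c / a r ≤ c := fun r => div_le_self hc (h1 r)
  -- ratio
  have hratio : ∀ r, a (r + 1) ≤ a r * (Real.exp c + B) := by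
    intro r
    have har := h1 r
    rcases r with _ | r
    · have : B ≤ a 0 * (Real.exp c + B) := by nlinarith
      exact hB.trans this
    · have h2 := hrec r
      have h3 : Real.exp (c / a r) ≤ Real.exp c := Real.exp_le_exp.mpr (hdiv r)
      have h4 : a (r + 1) * Real.exp (c / a r) ≤ a (r + 1) * (Real.exp c + B) := by
        apply mul_le_mul_of_nonneg_left _ (by linarith)
        linarith
      exact h2.trans h4
  induction r with
  | zero => simpa using hB
  | succ r ih =>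
    have h2 := hrec r
    have har := h1 r
    have har1 := h1 (r + 1)
    obtain ⟨x, hx⟩ : ∃ x, x = c / a r := ⟨_, rfl⟩
    have hx0 : 0 ≤ x := by rw [hx]; positivity
    have hxc : x ≤ c := by rw [hx]; exact hdiv r
    have h3 : Real.exp x - 1 ≤ x * Real.exp x := by
      have h4 := Real.add_one_le_exp (-x)
      have h5 : Real.exp (-x) * Real.exp x = 1 := by rw [← Real.exp_add]; simp
      have h6 : (-x + 1) * Real.exp x ≤ Real.exp (-x) * Real.exp x :=
        mul_le_mul_of_nonneg_right h4 (Real.exp_pos x).le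
      nlinarith
    have h4 : Real.exp x ≤ Real.exp c := Real.exp_le_exp.mpr hxc
    have h5 : a (r + 1) * x ≤ c * (Real.exp c + B) := by
      have h6 := hratio r
      have h7 : a r * x = c := by rw [hx]; field_simp
      calc a (r + 1) * x ≤ a r * (Real.exp c + B) * x := mul_le_mul_of_nonneg_right h6 hx0
        _ = a r * x * (Real.exp c + B) := by ring
        _ = c * (Real.exp c + B) := by rw [h7]
    have h8 : a (r + 1) * Real.exp x - a (r + 1) ≤ c * Real.exp c * (Real.exp c + B) := by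
      calc a (r + 1) * Real.exp x - a (r + 1) = a (r + 1) * (Real.exp x - 1) := by ring
        _ ≤ a (r + 1) * (x * Real.exp x) := mul_le_mul_of_nonneg_left h3 (by linarith)
        _ ≤ a (r + 1) * (x * Real.exp c) := by gcongr
        _ = (a (r + 1) * x) * Real.exp c := by ring
        _ ≤ (c * (Real.exp c + B)) * Real.exp c := mul_le_mul_of_nonneg_right h5 hec.le
        _ = _ := by ring
    rw [← hx] at h2
    push_cast
    linarith

theorem G_bound : ∃ C : ℝ, 1 ≤ C ∧ ∀ P : Finset ℕ, (∀ p ∈ P, 3 ≤ p) → (∀ p ∈ P, p.Prime) →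
    (∀ p ∈ P, ∀ q ∈ P, ¬ q ∣ p - 1) → ∀ r : ℕ, G P (128 ^ r) ≤ C * (r + 1) := by
  obtain ⟨C2, hC2⟩ : ∃ C2 : ℝ, C2 = 32768 * Real.exp 32768 * (Real.exp 32768 + (2 ^ 128 + 1)) :=
    ⟨_, rfl⟩
  have hC2pos : 0 ≤ C2 := by rw [hC2]; positivity
  refine ⟨2 ^ 128 + 1 + C2, by nlinarith [pow_pos (show (0 : ℝ) < 2 by norm_num) 128], ?_⟩
  intro P hP hPp hcyc r
  have hr := rec_bound (fun r => G P (128 ^ r)) 32768 (2 ^ 128 + 1) (by norm_num)
    (fun r => one_le_G P _) (by simpa using G_le P hP 128)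
    (fun r => by
      have h := G_rec hP hPp hcyc (i := 128 ^ r) (Nat.one_le_pow _ _ (by norm_num))
      have e1 : 128 * (128 * 128 ^ r) = 128 ^ (r + 2) := by ring
      have e2 : 128 * 128 ^ r = 128 ^ (r + 1) := by ring
      rw [e1, e2] at h
      exact h)
  rw [← hC2] at hr
  rcases r with _ | r
  · have h0 : G P (128 ^ 0) = 1 := by
      unfold G
      rw [Finset.filter_false_of_mem, Finset.prod_empty]
      intro p hp
      have := hP p hp
      have e : (2 : ℕ) ^ 128 ^ 0 = 2 := by norm_num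
      omega
    rw [h0]
    push_cast
    nlinarith [pow_pos (show (0 : ℝ) < 2 by norm_num) 128]
  · have h1 := hr r
    refine h1.trans ?_
    push_cast
    have h2 : (0 : ℝ) ≤ r := by positivity
    have h3 : (0 : ℝ) ≤ 2 ^ 128 + 1 := by positivity
    nlinarith

end Pool.Agent.Helper6.Sieve
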